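import Mathlib
import Pool.Agent.Lib_MP_1209e6_cv.Dual

/-!
# `MP_1209e6_ag`, QUARTIC: the general quartic surface in `ℙ³` (board note 2940, helper44)

Planes `Z = a X + b Y + c` through the generic point `P` of the surface `f = 0` whose section has two nodes.
Unknowns `y = (a, b, c, X₁, Y₁, X₂, Y₂)`.
-/

set_option autoImplicit false

open MvPolynomial

noncomputable section

namespace Pool.Agent.QU

/-- the monomials of degree at most `4` in three variables -/
abbrev Mon : Type := {m : Fin 3 →₀ ℕ // m.degree ≤ 4}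

/-- the nonconstant monomials of degree at most `4` in three variables -/
abbrev Mon' : Type := {m : Fin 3 →₀ ℕ // m.degree ≤ 4 ∧ m ≠ 0}

instance finite_mon : Finite Mon := by
  have h : Set.Finite {m : Fin 3 →₀ ℕ | m.degree ≤ 4} := by
    refine Set.Finite.subset (Finset.finite_toSet (Finset.Iic (Finsupp.equivFunOnFinite.symm
      (fun _ : Fin 3 => 4)))) fun m hm => ?_
    simp only [Finset.coe_Iic, Set.mem_Iic]
    intro i
    have h1 : m i ≤ m.degree := Finsupp.le_degree i m
    simpa using h1.trans hm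
  exact h.to_subtype

instance finite_mon' : Finite Mon' :=
  Finite.of_injective (fun m : Mon' => (⟨m.1, m.2.1⟩ : Mon)) fun a b h => by
    apply Subtype.ext
    exact congrArg (fun t : Mon => t.1) h

instance fintype_mon' : Fintype Mon' := Fintype.ofFinite _

section ring

variable {R : Type} [CommRing R]

/-- the point of the plane `Z = y 0 X + y 1 Y + y 2` over `(a, b)` -/
def npt (y : Fin 7 → R) (a b : R) : Fin 3 → R := ![a, b, y 0 * a + y 1 * b + y 2]

/-- derivatives of the section at the point `Q` of the plane -/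
def gX (f : MvPolynomial (Fin 3) R) (Q : Fin 3 → R) (y : Fin 7 → R) : R :=
  eval Q (pderiv 0 f) + y 0 * eval Q (pderiv 2 f)

def gY (f : MvPolynomial (Fin 3) R) (Q : Fin 3 → R) (y : Fin 7 → R) : R :=
  eval Q (pderiv 1 f) + y 1 * eval Q (pderiv 2 f)

/-- the square system: `P` lies in the plane, the section is singular over `(y 3, y 4)` and `(y 5, y 6)` -/
def sys (f : MvPolynomial (Fin 3) R) (P : Fin 3 → R) (y : Fin 7 → R) : Fin 7 → R :=
  ![P 2 - (y 0 * P 0 + y 1 * P 1 + y 2),
    eval (npt y (y 3) (y 4)) f, gX f (npt y (y 3) (y 4)) y, gY f (npt y (y 3) (y 4)) y,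
    eval (npt y (y 5) (y 6)) f, gX f (npt y (y 5) (y 6)) y, gY f (npt y (y 5) (y 6)) y]

/-- the tangent vector of the section at `P` -/
def tv (f : MvPolynomial (Fin 3) R) (P : Fin 3 → R) (y : Fin 7 → R) : Fin 3 → R :=
  ![gY f P y, - gX f P y, y 0 * gY f P y - y 1 * gX f P y]

/-- everything which is inverted for one family -/
def op (f : MvPolynomial (Fin 3) R) (P : Fin 3 → R) (y : Fin 7 → R) : R :=
  ((P 0 - y 3) * gX f P y + (P 1 - y 4) * gY f P y) * (P 1 - y 4) * (y 6 - y 4)

/-- the exchange of `X` and `Z` -/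
def sw : Fin 3 → Fin 3 := ![2, 1, 0]

/-- the general quartic polynomial which vanishes at `P` -/
def fP (c : Mon' → R) (P : Fin 3 → R) : MvPolynomial (Fin 3) R :=
  ∑ m : Mon', (monomial m.1 (c m) - C (c m * ∏ i, P i ^ m.1 i))

/-- the two systems together -/
def joint (c : Mon' → R) (P : Fin 3 → R) (y : Fin 2 × Fin 7 → R) (p : Fin 2 × Fin 7) : R :=
  if p.1 = 0 then sys (fP c P) P (fun j => y (0, j)) p.2
  else sys (rename sw (fP c P)) (P ∘ sw) (fun j => y (1, j)) p.2

/-- the two tangent vectors are independent -/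
def ind (f : MvPolynomial (Fin 3) R) (P : Fin 3 → R) (y z : Fin 7 → R) : R :=
  tv f P y 0 * tv (rename sw f) (P ∘ sw) z 1 - tv f P y 1 * tv (rename sw f) (P ∘ sw) z 2

/-- everything which is inverted -/
def jop (c : Mon' → R) (P : Fin 3 → R) (y : Fin 2 × Fin 7 → R) : R :=
  op (fP c P) P (fun j => y (0, j)) * op (rename sw (fP c P)) (P ∘ sw) (fun j => y (1, j)) *
    eval P (pderiv 2 (fP c P)) * ind (fP c P) P (fun j => y (0, j)) (fun j => y (1, j))

end ring

/-- a nondegenerate plane through the point `P` of the surface `f = 0` -/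
structure Sol {O : Type} [Field O] [Algebra ℂ O] (f : MvPolynomial (Fin 3) ℂ) (P : Fin 3 → O)
    (y : Fin 7 → O) : Prop where
  root : aeval P f = 0
  eqs : ∀ i, sys (map (algebraMap ℂ O) f) P y i = 0
  nondeg : ∀ η : Fin 7 → O, (∀ i, sys (map (algebraMap ℂ (DualNumber O)) f)
    (fun l => TrivSqZeroExt.inl (P l)) (Pool.Agent.CV.dpt y η) i = 0) → η = 0
  op_ne : op (map (algebraMap ℂ O) f) P y ≠ 0

end Pool.Agent.QU
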