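import Pool.Agent.Lib_MP_1209e6_qu.Defs
import Pool.Agent.Lib_MP_1209e6_ag.Der

/-! PIECE DER (helper70): derivations of `O ⊇ K = ℂ(x)`. -/

set_option autoImplicit false

open MvPolynomial

noncomputable section

namespace Pool.Agent.QU

/-- the chain rule -/
theorem der_chain {O : Type} [Field O] [Algebra ℂ O] (D : Derivation ℂ O O) (P : Fin 3 → O)
    (h : MvPolynomial (Fin 3) ℂ) :
    D (aeval P h) = ∑ i, aeval P (pderiv i h) * D (P i) := by
  induction h using MvPolynomial.induction_on with
  | C c =>
    simp only [aeval_C, Derivation.map_algebraMap, pderiv_C, map_zero, zero_mul,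
      Finset.sum_const_zero]
  | add p q hp hq =>
    simp only [map_add, hp, hq, add_mul, Finset.sum_add_distrib]
  | mul_X g i hp =>
    rw [map_mul, aeval_X, Derivation.leibniz, hp]
    simp only [smul_eq_mul, pderiv_mul, map_add, map_mul, aeval_X, add_mul,
      Finset.sum_add_distrib]
    have h1 : ∀ j, aeval P (pderiv j (X i : MvPolynomial (Fin 3) ℂ)) =
        if j = i then (1 : O) else 0 := by
      intro j
      by_cases h : j = i
      · subst h
        simp
      · rw [if_neg h, pderiv_X_of_ne (fun h' => h h'.symm), map_zero]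
    simp only [h1]
    have h2 : ∑ j, aeval P g * (if j = i then (1 : O) else 0) * D (P j) = aeval P g * D (P i) := by
      rw [Finset.sum_eq_single i]
      · simp
      · intro j _ hj
        simp [hj]
      · simp
    rw [h2, Finset.mul_sum, add_comm]
    congr 1
    refine Finset.sum_congr rfl fun j _ => ?_
    ring

/-- `∂/∂x₀`, `∂/∂x₁` on an algebraic extension `O` of `K`; the elements of `K` killed by both are constants -/
theorem exists_der {K O : Type} [Field K] [Algebra ℂ K] [Field O] [Algebra ℂ O] [Algebra K O]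
    [IsScalarTower ℂ K O] [Algebra.IsAlgebraic K O] (x : Fin 3 → K)
    (hx : AlgebraicIndependent ℂ ![x 0, x 1])
    (halg : Algebra.IsAlgebraic (IntermediateField.adjoin ℂ (Set.range ![x 0, x 1])) K) :
    ∃ D0 D1 : Derivation ℂ O O, D0 (algebraMap K O (x 0)) = 1 ∧ D0 (algebraMap K O (x 1)) = 0 ∧
      D1 (algebraMap K O (x 0)) = 0 ∧ D1 (algebraMap K O (x 1)) = 1 ∧
      ∀ u : K, D0 (algebraMap K O u) = 0 → D1 (algebraMap K O u) = 0 →
        ∃ c : ℂ, u = algebraMap ℂ K c := by
  -- the two coordinates in `O`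
  have hXO : AlgebraicIndependent ℂ (![algebraMap K O (x 0), algebraMap K O (x 1)] : Fin 2 → O) := by
    have h1 := hx.map' (f := IsScalarTower.toAlgHom ℂ K O) (algebraMap K O).injective
    have h2 : (⇑(IsScalarTower.toAlgHom ℂ K O) ∘ ![x 0, x 1] : Fin 2 → O) =
        ![algebraMap K O (x 0), algebraMap K O (x 1)] := by
      funext i
      fin_cases i <;> rfl
    rwa [h2] at h1
  obtain ⟨D0, hD0⟩ := Pool.Agent.Campana.exists_derivation _ hXO (![1, 0] : Fin 2 → O)
  obtain ⟨D1, hD1⟩ := Pool.Agent.Campana.exists_derivation _ hXO (![0, 1] : Fin 2 → O)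
  have a00 : D0 (algebraMap K O (x 0)) = 1 := hD0 0
  have a01 : D0 (algebraMap K O (x 1)) = 0 := hD0 1
  have a10 : D1 (algebraMap K O (x 0)) = 0 := hD1 0
  have a11 : D1 (algebraMap K O (x 1)) = 1 := hD1 1
  refine ⟨D0, D1, a00, a01, a10, a11, fun u h0 h1 => ?_⟩
  by_contra hcon
  -- `u` is transcendental over `ℂ`
  have htr : Transcendental ℂ (algebraMap K O u) := by
    intro halgu
    have h2 : IsAlgebraic ℂ u :=
      (isAlgebraic_algebraMap_iff (algebraMap K O).injective).1 halgu
    have h3 : IsIntegral ℂ u := h2.isIntegral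
    have h4 := IsAlgClosed.degree_eq_one_of_irreducible ℂ (minpoly.irreducible h3)
    obtain ⟨c, hc⟩ := minpoly.mem_range_of_degree_eq_one ℂ u h4
    exact hcon ⟨c, hc.symm⟩
  have hui : AlgebraicIndependent ℂ (fun _ : Unit => algebraMap K O u) :=
    (algebraicIndependent_unique_type_iff (ι := Unit)).2 htr
  obtain ⟨D, hD⟩ := Pool.Agent.Campana.exists_derivation _ hui (fun _ => (1 : O))
  have hDu : D (algebraMap K O u) = 1 := hD ()
  -- `E = D - D x₀ D0 - D x₁ D1` kills `x₀, x₁`
  let E : Derivation ℂ O O := D - D (algebraMap K O (x 0)) • D0 - D (algebraMap K O (x 1)) • D1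
  have hE0 : E (algebraMap K O (x 0)) = 0 := by
    simp only [E, Derivation.sub_apply, Derivation.smul_apply, a00, a10, smul_eq_mul]
    ring
  have hE1 : E (algebraMap K O (x 1)) = 0 := by
    simp only [E, Derivation.sub_apply, Derivation.smul_apply, a01, a11, smul_eq_mul]
    ring
  have hEu : E (algebraMap K O u) = 1 := by
    simp only [E, Derivation.sub_apply, Derivation.smul_apply, h0, h1, hDu, smul_eq_mul]
    ring
  -- the subfield `ℂ(x₀, x₁)` of `O`
  set F : IntermediateField ℂ O :=
    IntermediateField.adjoin ℂ (Set.range (![algebraMap K O (x 0), algebraMap K O (x 1)] : Fin 2 → O))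
    with hF
  have hEF : ∀ a ∈ F, E a = 0 := by
    intro a ha
    induction ha using IntermediateField.adjoin_induction with
    | mem x hx =>
      obtain ⟨i, rfl⟩ := hx
      fin_cases i
      · exact hE0
      · exact hE1
    | algebraMap r => exact Derivation.map_algebraMap E r
    | add x y _ _ hx hy => rw [map_add, hx, hy, add_zero]
    | inv x _ hx => rw [Derivation.leibniz_inv, hx, smul_zero]
    | mul x y _ _ hx hy => rw [Derivation.leibniz, hx, hy, smul_zero, smul_zero, add_zero]
  have halgO : IsAlgebraic F (algebraMap K O u) := by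
    obtain ⟨p, hp0, hp⟩ := halg.isAlgebraic u
    -- the embedding of `ℂ(x₀, x₁) ⊆ K` into `F`
    have hmem : ∀ a : IntermediateField.adjoin ℂ (Set.range (![x 0, x 1] : Fin 2 → K)),
        (IsScalarTower.toAlgHom ℂ K O) (a : K) ∈ F := by
      intro a
      have h2 : (IsScalarTower.toAlgHom ℂ K O) (a : K) ∈
          (IntermediateField.adjoin ℂ (Set.range (![x 0, x 1] : Fin 2 → K))).map
            (IsScalarTower.toAlgHom ℂ K O) := ⟨a, a.2, rfl⟩
      rw [IntermediateField.adjoin_map, ← Set.range_comp] at h2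
      have h3 : (⇑(IsScalarTower.toAlgHom ℂ K O) ∘ ![x 0, x 1] : Fin 2 → O) =
          ![algebraMap K O (x 0), algebraMap K O (x 1)] := by
        funext i
        fin_cases i <;> rfl
      rw [h3] at h2
      exact h2
    let j : IntermediateField.adjoin ℂ (Set.range (![x 0, x 1] : Fin 2 → K)) →+* F :=
      ((IsScalarTower.toAlgHom ℂ K O : K →+* O).comp
        (algebraMap (IntermediateField.adjoin ℂ (Set.range (![x 0, x 1] : Fin 2 → K))) K)).codRestrict
        F.toSubfield hmem
    refine ⟨p.map j, ?_, ?_⟩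
    · exact (Polynomial.map_ne_zero_iff j.injective).2 hp0
    · have h2 := congrArg (algebraMap K O) hp
      rw [map_zero, Polynomial.aeval_def, Polynomial.hom_eval₂] at h2
      rw [Polynomial.aeval_def, Polynomial.eval₂_map]
      exact h2
  have := Pool.Agent.Campana.derivation_eq_zero E F hEF _ halgO
  rw [hEu] at this
  exact one_ne_zero this

/-- the chain rule on the surface -/
theorem der_root {O : Type} [Field O] [Algebra ℂ O] (f : MvPolynomial (Fin 3) ℂ) (P : Fin 3 → O)
    (h : aeval P f = 0) (δ : Derivation ℂ O O) : aeval P (pderiv 0 f) * δ (P 0) +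
      aeval P (pderiv 1 f) * δ (P 1) + aeval P (pderiv 2 f) * δ (P 2) = 0 := by
  have h1 := der_chain δ P f
  rw [h, map_zero, Fin.sum_univ_three] at h1
  exact h1.symm

/-- `K = ℂ(x)` is algebraic over `ℂ(x 0, x 1)` -/
theorem alg_of_root {K : Type} [Field K] [Algebra ℂ K] (x : Fin 3 → K)
    (hgen : IntermediateField.adjoin ℂ (Set.range x) = ⊤) (f : MvPolynomial (Fin 3) ℂ)
    (hf : aeval x f = 0) (h2 : aeval x (pderiv 2 f) ≠ 0) :
    Algebra.IsAlgebraic (IntermediateField.adjoin ℂ (Set.range ![x 0, x 1])) K := by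
  set F := IntermediateField.adjoin ℂ (Set.range (![x 0, x 1] : Fin 2 → K)) with hF
  have m0 : x 0 ∈ F := IntermediateField.subset_adjoin _ _ ⟨0, rfl⟩
  have m1 : x 1 ∈ F := IntermediateField.subset_adjoin _ _ ⟨1, rfl⟩
  let q : Fin 3 → Polynomial F := ![Polynomial.C ⟨x 0, m0⟩, Polynomial.C ⟨x 1, m1⟩, Polynomial.X]
  have hq : ∀ i, Polynomial.aeval (x 2) (q i) = x i := by
    intro i
    fin_cases i <;> simp [q]
  have hev : ∀ h : MvPolynomial (Fin 3) ℂ, Polynomial.aeval (x 2) (aeval q h) = aeval x h := by
    intro h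
    induction h using MvPolynomial.induction_on with
    | C c =>
      rw [aeval_C, aeval_C, IsScalarTower.algebraMap_apply ℂ F (Polynomial F),
        Polynomial.algebraMap_eq, Polynomial.aeval_C, ← IsScalarTower.algebraMap_apply]
    | add p r hp hr => rw [map_add, map_add, map_add, hp, hr]
    | mul_X p i hp => rw [map_mul, map_mul, map_mul, hp, aeval_X, aeval_X, hq]
  have hder : ∀ h : MvPolynomial (Fin 3) ℂ,
      Polynomial.derivative (aeval q h) = aeval q (pderiv 2 h) := by
    intro h
    induction h using MvPolynomial.induction_on with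
    | C c =>
      rw [aeval_C, pderiv_C, map_zero, IsScalarTower.algebraMap_apply ℂ F (Polynomial F),
        Polynomial.algebraMap_eq, Polynomial.derivative_C]
    | add p r hp hr => rw [map_add, map_add, map_add, map_add, hp, hr]
    | mul_X p i hp =>
      rw [map_mul, Polynomial.derivative_mul, hp, pderiv_mul, map_add, map_mul, map_mul, aeval_X]
      congr 2
      fin_cases i
      · simp [q, pderiv_X]
      · simp [q, pderiv_X]
      · simp [q]
  have ha2 : IsAlgebraic F (x 2) := by
    refine ⟨aeval q f, ?_, ?_⟩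
    · intro h0
      apply h2
      rw [← hev, ← hder, h0, Polynomial.derivative_zero, map_zero]
    · rw [hev, hf]
  have hle : IntermediateField.adjoin ℂ (Set.range x) ≤
      (algebraicClosure F K).restrictScalars ℂ := by
    rw [IntermediateField.adjoin_le_iff]
    rintro _ ⟨i, rfl⟩
    show x i ∈ algebraicClosure F K
    rw [mem_algebraicClosure_iff]
    fin_cases i
    · exact isAlgebraic_algebraMap (⟨x 0, m0⟩ : F)
    · exact isAlgebraic_algebraMap (⟨x 1, m1⟩ : F)
    · exact ha2
  refine ⟨fun u => ?_⟩
  have hu : u ∈ IntermediateField.adjoin ℂ (Set.range x) := by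
    rw [hgen]
    trivial
  have h3 : u ∈ algebraicClosure F K := hle hu
  exact mem_algebraicClosure_iff.1 h3

end Pool.Agent.QU
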