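import Pool.Agent.Lib_MP_1209e6_qu.Defs
import Pool.Agent.Lib_MP_1209e6_cv.ExistsR

/-! PIECE ELIM (helper51 for helper31): the generic point of a general quartic surface avoids `S = 0`. -/

set_option autoImplicit false

open MvPolynomial

noncomputable section

namespace Pool.Agent.QU

/-- the index of the constant coefficient -/
def mon0 : Mon := ⟨0, by simp⟩

/-- a nonconstant monomial as a monomial -/
def monUp (m : Mon') : Mon := ⟨m.1, m.2.1⟩

/-- the nonconstant part of the general quartic polynomial -/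
def elimF : MvPolynomial (Mon' ⊕ Fin 3) ℚ :=
  ∑ m : Mon', X (Sum.inl m) * ∏ i, X (Sum.inr i) ^ m.1 i

open Classical in
/-- `c_0 ↦ - F'`, the other variables to themselves -/
def elimG : Mon ⊕ Fin 2 → MvPolynomial (Mon' ⊕ Fin 3) ℚ :=
  Sum.elim (fun m => if h : m.1 = 0 then - elimF else X (Sum.inl ⟨m.1, m.2, h⟩))
    ![X (Sum.inr 0), X (Sum.inr 1)]

theorem elimG_mon0 : elimG (Sum.inl mon0) = - elimF := by
  simp [elimG, mon0]

theorem elimG_monUp (m : Mon') : elimG (Sum.inl (monUp m)) = X (Sum.inl m) := by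
  have h : (monUp m).1 ≠ 0 := m.2.2
  simp only [elimG, Sum.elim_inl, dif_neg h]
  rfl

/-- the equation of `z` over `ℚ[c, x, y]` -/
def elimP : Polynomial (MvPolynomial (Mon ⊕ Fin 2) ℚ) :=
  Polynomial.C (X (Sum.inl mon0)) + ∑ m : Mon',
    Polynomial.C (X (Sum.inl (monUp m)) * X (Sum.inr 0) ^ m.1 0 * X (Sum.inr 1) ^ m.1 1) *
      Polynomial.X ^ m.1 2

/-- `z ^ 4` -/
def monZ : Mon' := ⟨Finsupp.single 2 4, by simp, by simp⟩

theorem elimP_ne : elimP ≠ 0 := by
  classical
  intro h
  let ev : MvPolynomial (Mon ⊕ Fin 2) ℚ →+* ℚ :=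
    eval (Sum.elim (fun m : Mon => if m = monUp monZ then 1 else 0) (fun _ => 1))
  have h1 : Polynomial.map ev elimP = Polynomial.X ^ 4 := by
    unfold elimP
    rw [Polynomial.map_add, Polynomial.map_sum, Finset.sum_eq_single monZ]
    · have h0 : mon0 ≠ monUp monZ := by
        intro h0
        have := congrArg (fun t : Mon => t.1 2) h0
        simp [mon0, monUp, monZ] at this
      simp only [Polynomial.map_C, ev, eval_X, Sum.elim_inl, if_neg h0, Polynomial.C_0, zero_add,
        Polynomial.map_mul, map_mul, map_pow, Sum.elim_inr, if_pos, one_pow, mul_one,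
        Polynomial.C_1, one_mul, Polynomial.map_pow, Polynomial.map_X]
      simp [monZ]
    · intro m _ hm
      have h0 : monUp m ≠ monUp monZ := by
        intro h0
        apply hm
        apply Subtype.ext
        exact congrArg (fun t : Mon => t.1) h0
      simp only [Polynomial.map_C, ev, eval_X, Sum.elim_inl, if_neg h0, Polynomial.C_0,
        Polynomial.map_mul, map_mul, zero_mul]
    · intro h; exact absurd (Finset.mem_univ _) h
  rw [h, Polynomial.map_zero] at h1
  exact pow_ne_zero 4 Polynomial.X_ne_zero h1.symm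

theorem aeval_poly3 {O : Type} [Field O] [Algebra ℂ O] (f : MvPolynomial (Fin 3) ℂ)
    (P : Fin 3 → O) (hf : f.totalDegree ≤ 4) :
    aeval P f = algebraMap ℂ O (coeff 0 f) +
      ∑ m : Mon', algebraMap ℂ O (coeff m.1 f) * ∏ i, P i ^ m.1 i := by
  classical
  rw [aeval_def, eval₂_eq']
  let T : Finset (Fin 3 →₀ ℕ) := insert 0 (Finset.univ.image (fun m : Mon' => m.1))
  have hT : f.support ⊆ T := by
    intro m hm
    by_cases h0 : m = 0
    · rw [h0]; exact Finset.mem_insert_self _ _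
    · refine Finset.mem_insert_of_mem (Finset.mem_image.mpr ⟨⟨m, ?_, h0⟩, Finset.mem_univ _, rfl⟩)
      exact (le_totalDegree hm).trans hf
  rw [Finset.sum_subset hT]
  · rw [Finset.sum_insert, Finset.sum_image]
    · simp
    · intro a _ b _ hab
      exact Subtype.ext hab
    · intro h0
      obtain ⟨m, _, hm⟩ := Finset.mem_image.mp h0
      exact m.2.2 hm
  · intro m _ hm
    rw [notMem_support_iff.mp hm, map_zero, zero_mul]

theorem elim (S : MvPolynomial (Mon' ⊕ Fin 3) ℚ) (hS : S ≠ 0) : ∃ R : MvPolynomial Mon ℚ, R ≠ 0 ∧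
    ∀ (O : Type) [Field O] [Algebra ℂ O] [Algebra ℚ O] (f : MvPolynomial (Fin 3) ℂ) (P : Fin 3 → O),
      f.totalDegree ≤ 4 → aeval (fun m : Mon => coeff m.1 f) R ≠ 0 →
      AlgebraicIndependent ℂ ![P 0, P 1] → aeval P f = 0 →
      aeval (Sum.elim (fun m : Mon' => algebraMap ℂ O (coeff m.1 f)) P) S ≠ 0 := by
  classical
  let φ : MvPolynomial (Mon ⊕ Fin 2) ℚ →ₐ[ℚ] MvPolynomial (Mon' ⊕ Fin 3) ℚ := aeval elimG
  let _ : Algebra (MvPolynomial (Mon ⊕ Fin 2) ℚ) (MvPolynomial (Mon' ⊕ Fin 3) ℚ) :=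
    φ.toRingHom.toAlgebra
  have hφ : ∀ x, algebraMap (MvPolynomial (Mon ⊕ Fin 2) ℚ) (MvPolynomial (Mon' ⊕ Fin 3) ℚ) x
      = φ x := fun x => rfl
  have hX : ∀ v : Mon' ⊕ Fin 3, IsAlgebraic (MvPolynomial (Mon ⊕ Fin 2) ℚ)
      (X v : MvPolynomial (Mon' ⊕ Fin 3) ℚ) := by
    have hz : IsAlgebraic (MvPolynomial (Mon ⊕ Fin 2) ℚ)
      (X (Sum.inr 2) : MvPolynomial (Mon' ⊕ Fin 3) ℚ) := by
      refine ⟨elimP, elimP_ne, ?_⟩
      unfold elimP
      rw [map_add, map_sum, Polynomial.aeval_C, hφ]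
      have h1 : φ (X (Sum.inl mon0)) = - elimF := by
        rw [show φ = aeval elimG from rfl, aeval_X, elimG_mon0]
      rw [h1]
      have h2 : ∀ m : Mon', Polynomial.aeval (X (Sum.inr 2) : MvPolynomial (Mon' ⊕ Fin 3) ℚ)
          (Polynomial.C (X (Sum.inl (monUp m)) * X (Sum.inr 0) ^ m.1 0 *
            X (Sum.inr 1) ^ m.1 1 : MvPolynomial (Mon ⊕ Fin 2) ℚ) * Polynomial.X ^ m.1 2) =
          X (Sum.inl m) * ∏ i, X (Sum.inr i) ^ m.1 i := by
        intro m
        rw [map_mul, Polynomial.aeval_C, hφ, map_pow, Polynomial.aeval_X, map_mul, map_mul,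
          map_pow, map_pow, show φ = aeval elimG from rfl, aeval_X, aeval_X, aeval_X,
          elimG_monUp, Fin.prod_univ_three]
        simp only [elimG, Sum.elim_inr, Matrix.cons_val_zero, Matrix.cons_val_one]
        ring
      rw [Finset.sum_congr rfl (fun m _ => h2 m)]
      exact neg_add_cancel _
    rintro (m | i)
    · have h1 := isAlgebraic_algebraMap (R := MvPolynomial (Mon ⊕ Fin 2) ℚ)
        (A := MvPolynomial (Mon' ⊕ Fin 3) ℚ) (X (Sum.inl (monUp m)))
      rw [hφ, show φ = aeval elimG from rfl, aeval_X, elimG_monUp] at h1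
      exact h1
    · fin_cases i
      · have h1 := isAlgebraic_algebraMap (R := MvPolynomial (Mon ⊕ Fin 2) ℚ)
          (A := MvPolynomial (Mon' ⊕ Fin 3) ℚ) (X (Sum.inr 0))
        rw [hφ, show φ = aeval elimG from rfl, aeval_X] at h1
        exact h1
      · have h1 := isAlgebraic_algebraMap (R := MvPolynomial (Mon ⊕ Fin 2) ℚ)
          (A := MvPolynomial (Mon' ⊕ Fin 3) ℚ) (X (Sum.inr 1))
        rw [hφ, show φ = aeval elimG from rfl, aeval_X] at h1
        exact h1
      · exact hz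
  have hall : ∀ q : MvPolynomial (Mon' ⊕ Fin 3) ℚ,
      IsAlgebraic (MvPolynomial (Mon ⊕ Fin 2) ℚ) q := by
    intro q
    induction q using MvPolynomial.induction_on with
    | C a =>
      have h1 := isAlgebraic_algebraMap (R := MvPolynomial (Mon ⊕ Fin 2) ℚ)
        (A := MvPolynomial (Mon' ⊕ Fin 3) ℚ) (C a)
      rw [hφ, show φ = aeval elimG from rfl, aeval_C] at h1
      exact h1
    | add p q hp hq => exact hp.add hq
    | mul_X p v hp => exact hp.mul (hX v)
  obtain ⟨r, hr, T, hT⟩ := (hall S).exists_nonzero_dvd (mem_nonZeroDivisors_of_ne_zero hS)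
  rw [hφ] at hT
  obtain ⟨R, hR, H⟩ := Pool.Agent.CV.exists_R r hr
  refine ⟨R, hR, ?_⟩
  intro O _ _ _ f P hf hRf hind hroot h0
  have _ : IsScalarTower ℚ ℂ O := IsScalarTower.of_algebraMap_eq' (Subsingleton.elim _ _)
  refine H O (fun m => coeff m.1 f) ![P 0, P 1] hind hRf ?_
  let ψ : MvPolynomial (Mon' ⊕ Fin 3) ℚ →ₐ[ℚ] O :=
    aeval (Sum.elim (fun m : Mon' => algebraMap ℂ O (coeff m.1 f)) P)
  have hψ : ψ.comp φ = aeval (Sum.elim (fun m : Mon => algebraMap ℂ O (coeff m.1 f))
      ![P 0, P 1]) := by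
    refine MvPolynomial.algHom_ext (fun v => ?_)
    rw [AlgHom.comp_apply, show φ = aeval elimG from rfl, aeval_X, aeval_X]
    rcases v with m | i
    · by_cases hm : m.1 = 0
      · have hm0 : m = mon0 := Subtype.ext hm
        rw [hm0, elimG_mon0, Sum.elim_inl]
        have h1 := aeval_poly3 f P hf
        rw [hroot] at h1
        have h2 : ψ elimF = ∑ m : Mon', algebraMap ℂ O (coeff m.1 f) * ∏ i, P i ^ m.1 i := by
          unfold elimF
          rw [map_sum]
          refine Finset.sum_congr rfl (fun m _ => ?_)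
          rw [map_mul, map_prod, show ψ = aeval _ from rfl, aeval_X]
          congr 1
          refine Finset.prod_congr rfl (fun i _ => ?_)
          rw [map_pow, aeval_X]
          rfl
        rw [map_neg, h2]
        exact (eq_neg_of_add_eq_zero_left h1.symm).symm
      · have hm0 : m = monUp ⟨m.1, m.2, hm⟩ := rfl
        rw [hm0, elimG_monUp, show ψ = aeval _ from rfl, aeval_X]
        rfl
    · fin_cases i
      · change ψ (X (Sum.inr 0)) = _
        rw [show ψ = aeval _ from rfl, aeval_X]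
        rfl
      · change ψ (X (Sum.inr 1)) = _
        rw [show ψ = aeval _ from rfl, aeval_X]
        rfl
  rw [← hψ, AlgHom.comp_apply, hT, map_mul]
  change ψ S = 0 at h0
  rw [h0, zero_mul]

end Pool.Agent.QU
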