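import Pool.Agent.Lib_MP_1209e6_dp.Homog
import Pool.Agent.Lib_MP_1209e6_dp.DerAlg
import Pool.Agent.Lib_MP_1209e6_ag.Der

/-! PIECE FAM: a plane quartic curve with two double points is a curve `w² = q(t)`, `deg q ≤ 4`. -/

set_option autoImplicit false

open MvPolynomial Pool.Agent.CampanaFlow

namespace Pool.Agent.QU

section poly

theorem fm_cases {i j : Fin 2} (hij : i ≠ j) (l : Fin 2) : l = i ∨ l = j := by
  revert i j l
  decide

variable {k : Type} [Field k]

/-- the line through `m` with slope `T` (inner variable), parameter `ρ` (outer variable) -/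
noncomputable def fmPt (i : Fin 2) (m : Fin 2 → k) (l : Fin 2) : Polynomial (Polynomial k) :=
  if l = i then Polynomial.C (Polynomial.C (m l)) + Polynomial.X
  else Polynomial.C (Polynomial.C (m l)) + Polynomial.C Polynomial.X * Polynomial.X

/-- filtration: the coefficient of `ρ ^ n` has degree at most `n` in `T` -/
def FmW (P : Polynomial (Polynomial k)) : Prop := ∀ n, (P.coeff n).natDegree ≤ n

theorem fmW_add {P Q : Polynomial (Polynomial k)} (hP : FmW P) (hQ : FmW Q) : FmW (P + Q) := by
  intro n
  rw [Polynomial.coeff_add]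
  exact (Polynomial.natDegree_add_le _ _).trans (max_le (hP n) (hQ n))

theorem fmW_mul {P Q : Polynomial (Polynomial k)} (hP : FmW P) (hQ : FmW Q) : FmW (P * Q) := by
  intro n
  rw [Polynomial.coeff_mul]
  refine Polynomial.natDegree_sum_le_of_forall_le _ _ ?_
  rintro ⟨a, b⟩ hab
  rw [Finset.HasAntidiagonal.mem_antidiagonal] at hab
  simp only at hab ⊢
  refine Polynomial.natDegree_mul_le.trans ?_
  have h1 := hP a
  have h2 := hQ b
  omega

theorem fmW_C (a : k) : FmW (Polynomial.C (Polynomial.C a)) := by
  intro n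
  rw [Polynomial.coeff_C]
  split_ifs
  · simp
  · simp

theorem fmW_X : FmW (Polynomial.X : Polynomial (Polynomial k)) := by
  intro n
  rw [Polynomial.coeff_X]
  split_ifs
  · simp
  · simp

theorem fmW_CX : FmW (Polynomial.C (Polynomial.X : Polynomial k) * Polynomial.X) := by
  intro n
  rw [Polynomial.coeff_C_mul, Polynomial.coeff_X]
  split_ifs with h
  · rw [mul_one, Polynomial.natDegree_X]
    omega
  · simp

theorem fmW_pt (i : Fin 2) (m : Fin 2 → k) (l : Fin 2) : FmW (fmPt i m l) := by
  unfold fmPt
  split_ifs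
  · exact fmW_add (fmW_C _) fmW_X
  · exact fmW_add (fmW_C _) fmW_CX

theorem fmW_aeval (i : Fin 2) (m : Fin 2 → k) (G : MvPolynomial (Fin 2) k) :
    FmW (aeval (fmPt i m) G) := by
  induction G using MvPolynomial.induction_on with
  | C a =>
    rw [MvPolynomial.aeval_C]
    exact fmW_C a
  | add p q hp hq =>
    rw [map_add]
    exact fmW_add hp hq
  | mul_X p l hp =>
    rw [map_mul, MvPolynomial.aeval_X]
    exact fmW_mul hp (fmW_pt i m l)

theorem fm_natDegree (i : Fin 2) (m : Fin 2 → k) (G : MvPolynomial (Fin 2) k)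
    (hG : G.totalDegree ≤ 4) : (aeval (fmPt i m) G).natDegree ≤ 4 := by
  have e : aeval (fmPt i m) G = aeval (fmPt i m) (MvPolynomial.map (Polynomial.C : k →+* Polynomial k) G) := by
    rw [MvPolynomial.aeval_def, MvPolynomial.aeval_def, MvPolynomial.eval₂_map]
    rfl
  rw [e]
  have := MvPolynomial.aeval_natDegree_le (MvPolynomial.map (Polynomial.C : k →+* Polynomial k) G)
    ((Finset.sup_mono (MvPolynomial.support_map_subset _ _)).trans hG) (fmPt i m) (n := 1) (fun l => by
      unfold fmPt
      split_ifs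
      · compute_degree
      · compute_degree)
  simpa using this

/-- evaluation at `(T, ρ)` in an extension field -/
noncomputable def fmEv {L : Type} [Field L] [Algebra k L] (t r : L) :
    Polynomial (Polynomial k) →+* L :=
  Polynomial.eval₂RingHom ((Polynomial.aeval t : Polynomial k →ₐ[k] L) : Polynomial k →+* L) r

theorem fmEv_aeval {L : Type} [Field L] [Algebra k L] (t r : L) (i : Fin 2) (m : Fin 2 → k)
    (G : MvPolynomial (Fin 2) k) : fmEv t r (aeval (fmPt i m) G) =
      aeval (fun l => if l = i then algebraMap k L (m l) + r else algebraMap k L (m l) + t * r) G := by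
  induction G using MvPolynomial.induction_on with
  | C a =>
    rw [MvPolynomial.aeval_C, MvPolynomial.aeval_C]
    change Polynomial.eval₂ _ r (Polynomial.C (Polynomial.C a)) = _
    rw [Polynomial.eval₂_C]
    change Polynomial.aeval t (Polynomial.C a) = _
    rw [Polynomial.aeval_C]
  | add p q hp hq => rw [map_add, map_add, map_add, hp, hq]
  | mul_X p l hp =>
    rw [map_mul, map_mul, map_mul, hp, MvPolynomial.aeval_X, MvPolynomial.aeval_X]
    congr 1
    unfold fmPt fmEv
    split_ifs
    · simp
    · simp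

theorem fm_deriv {i j : Fin 2} (hij : i ≠ j) (m : Fin 2 → k) (G : MvPolynomial (Fin 2) k) :
    Polynomial.derivative (aeval (fmPt i m) G) =
      aeval (fmPt i m) (pderiv i G) + Polynomial.C Polynomial.X * aeval (fmPt i m) (pderiv j G) := by
  induction G using MvPolynomial.induction_on with
  | C a =>
    rw [MvPolynomial.aeval_C, pderiv_C, pderiv_C, map_zero, mul_zero, add_zero]
    exact Polynomial.derivative_C
  | add p q hp hq =>
    simp only [map_add, hp, hq]
    ring
  | mul_X p l hp =>
    have hl : l = i ∨ l = j := fm_cases hij l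
    rw [map_mul, Polynomial.derivative_mul, hp, MvPolynomial.aeval_X, Derivation.leibniz,
      Derivation.leibniz, pderiv_X, pderiv_X]
    rcases hl with rfl | rfl
    · have hd : Polynomial.derivative (fmPt l m l) = 1 := by
        simp [fmPt]
      rw [hd, Pi.single_eq_same, Pi.single_eq_of_ne hij]
      simp only [smul_eq_mul, map_add, map_mul, map_one, map_zero, MvPolynomial.aeval_X, mul_zero,
        mul_one, zero_add, add_zero]
      ring
    · have hd : Polynomial.derivative (fmPt i m l) = Polynomial.C Polynomial.X := by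
        unfold fmPt
        rw [if_neg hij.symm]
        simp
      rw [hd, Pi.single_eq_same, Pi.single_eq_of_ne hij.symm]
      simp only [smul_eq_mul, map_add, map_mul, map_one, map_zero, MvPolynomial.aeval_X, mul_zero,
        mul_one, zero_add, add_zero]
      ring

/-- the pencil of lines at fixed `ρ = r` -/
noncomputable def fmLn (i : Fin 2) (m : Fin 2 → k) (r : k) (l : Fin 2) : Polynomial k :=
  if l = i then Polynomial.C (m l + r) else Polynomial.C (m l) + Polynomial.X * Polynomial.C r

theorem fm_eval (i : Fin 2) (m : Fin 2 → k) (r : k) (G : MvPolynomial (Fin 2) k) :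
    (aeval (fmPt i m) G).eval (Polynomial.C r) = aeval (fmLn i m r) G := by
  induction G using MvPolynomial.induction_on with
  | C a =>
    rw [MvPolynomial.aeval_C, MvPolynomial.aeval_C]
    exact Polynomial.eval_C
  | add p q hp hq => rw [map_add, map_add, Polynomial.eval_add, hp, hq]
  | mul_X p l hp =>
    rw [map_mul, map_mul, Polynomial.eval_mul, hp, MvPolynomial.aeval_X, MvPolynomial.aeval_X]
    congr 1
    unfold fmPt fmLn
    split_ifs
    · simp
    · simp

theorem fm_lnDeriv {i j : Fin 2} (hij : i ≠ j) (m : Fin 2 → k) (r : k) (G : MvPolynomial (Fin 2) k) :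
    Polynomial.derivative (aeval (fmLn i m r) G) =
      Polynomial.C r * aeval (fmLn i m r) (pderiv j G) := by
  induction G using MvPolynomial.induction_on with
  | C a =>
    rw [MvPolynomial.aeval_C, pderiv_C, map_zero, mul_zero]
    exact Polynomial.derivative_C
  | add p q hp hq =>
    simp only [map_add, hp, hq]
    ring
  | mul_X p l hp =>
    have hl : l = i ∨ l = j := fm_cases hij l
    rw [map_mul, Polynomial.derivative_mul, hp, MvPolynomial.aeval_X, Derivation.leibniz, pderiv_X]
    rcases hl with rfl | rfl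
    · have hd : Polynomial.derivative (fmLn l m r l) = 0 := by
        simp [fmLn]
      rw [hd, Pi.single_eq_of_ne hij]
      simp only [smul_eq_mul, map_add, map_mul, map_one, map_zero, MvPolynomial.aeval_X, mul_zero,
        mul_one, zero_add, add_zero]
      ring
    · have hd : Polynomial.derivative (fmLn i m r l) = Polynomial.C r := by
        unfold fmLn
        rw [if_neg hij.symm]
        simp
      rw [hd, Pi.single_eq_same]
      simp only [smul_eq_mul, map_add, map_mul, map_one, map_zero, MvPolynomial.aeval_X, mul_zero,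
        mul_one, zero_add, add_zero]
      ring

theorem fm_ln_zero (i : Fin 2) (m : Fin 2 → k) (G : MvPolynomial (Fin 2) k) :
    aeval (fmLn i m 0) G = Polynomial.C (aeval m G) := by
  have e : fmLn i m 0 = fun l => Polynomial.C (m l) := by
    funext l
    unfold fmLn
    split_ifs
    · simp
    · simp
  rw [e]
  induction G using MvPolynomial.induction_on with
  | C a =>
    rw [MvPolynomial.aeval_C, MvPolynomial.aeval_C]
    rfl
  | add p q hp hq => rw [map_add, map_add, Polynomial.C_add, hp, hq]
  | mul_X p l hp =>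
    rw [map_mul, map_mul, Polynomial.C_mul, hp, MvPolynomial.aeval_X, MvPolynomial.aeval_X]

/-- shape of the restriction to the lines through a double point -/
theorem fm_shape {i j : Fin 2} (hij : i ≠ j) (m : Fin 2 → k) (G : MvPolynomial (Fin 2) k)
    (hG : G.totalDegree ≤ 4) (h0 : aeval m G = 0) (hi : aeval m (pderiv i G) = 0)
    (hj : aeval m (pderiv j G) = 0) :
    ∃ g2 g3 g4 : Polynomial k, g2.natDegree ≤ 2 ∧ g3.natDegree ≤ 3 ∧ g4.natDegree ≤ 4 ∧
      aeval (fmPt i m) G = Polynomial.C g2 * Polynomial.X ^ 2 + Polynomial.C g3 * Polynomial.X ^ 3 +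
        Polynomial.C g4 * Polynomial.X ^ 4 := by
  have hW := fmW_aeval i m G
  have hd := fm_natDegree i m G hG
  have c0 : (aeval (fmPt i m) G).coeff 0 = 0 := by
    rw [Polynomial.coeff_zero_eq_eval_zero, ← Polynomial.C_0, fm_eval, fm_ln_zero, h0]
  have c1 : (aeval (fmPt i m) G).coeff 1 = 0 := by
    have e : (aeval (fmPt i m) G).coeff 1 = (Polynomial.derivative (aeval (fmPt i m) G)).eval 0 := by
      rw [← Polynomial.coeff_zero_eq_eval_zero, Polynomial.coeff_derivative]
      simp
    rw [e, fm_deriv hij, ← Polynomial.C_0, Polynomial.eval_add, Polynomial.eval_mul, fm_eval, fm_eval,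
      fm_ln_zero, fm_ln_zero, hi, hj]
    simp
  refine ⟨_, _, _, hW 2, hW 3, hW 4, ?_⟩
  ext1 n
  simp only [Polynomial.coeff_add, Polynomial.coeff_C_mul, Polynomial.coeff_X_pow]
  rcases Nat.lt_or_ge 4 n with hn | hn
  · rw [Polynomial.coeff_eq_zero_of_natDegree_lt (hd.trans_lt hn), if_neg (by omega), if_neg (by omega),
      if_neg (by omega)]
    simp
  · interval_cases n
    · rw [c0]; simp
    · rw [c1]; simp
    · simp
    · simp
    · simp

theorem fmEv_self (P : Polynomial (Polynomial k)) (a r : k) :
    (P.eval (Polynomial.C r)).eval a = fmEv a r P := by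
  unfold fmEv
  have h := Polynomial.hom_eval₂ P (RingHom.id (Polynomial k)) (Polynomial.evalRingHom a) (Polynomial.C r)
  rw [Polynomial.coe_evalRingHom, Polynomial.eval_C, RingHom.comp_id] at h
  rw [Polynomial.coe_eval₂RingHom]
  exact h

/-- the discriminant of the pencil at one double point is divisible by the square of the linear form of
the other one -/
theorem fm_disc {i j : Fin 2} (hij : i ≠ j) (m m' : Fin 2 → k) (G : MvPolynomial (Fin 2) k)
    (h0 : aeval m' G = 0) (hi : aeval m' (pderiv i G) = 0)
    (hj : aeval m' (pderiv j G) = 0) (hX : m i ≠ m' i) (g2 g3 g4 : Polynomial k)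
    (hP : aeval (fmPt i m) G = Polynomial.C g2 * Polynomial.X ^ 2 + Polynomial.C g3 * Polynomial.X ^ 3 +
        Polynomial.C g4 * Polynomial.X ^ 4) (h2 : g2.natDegree ≤ 2) (h3 : g3.natDegree ≤ 3)
    (h4 : g4.natDegree ≤ 4) :
    ∃ (a : k) (Q : Polynomial k), Q.natDegree ≤ 4 ∧
      g3 ^ 2 - 4 * g2 * g4 = (Polynomial.X - Polynomial.C a) ^ 2 * Q := by
  have hr : m' i - m i ≠ 0 := sub_ne_zero.2 hX.symm
  set r : k := m' i - m i with hrdef
  set a : k := (m' j - m j) / r with ha
  have hpt : (fun l => if l = i then algebraMap k k (m l) + r else algebraMap k k (m l) + a * r) = m' := by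
    funext l
    have hl : l = i ∨ l = j := fm_cases hij l
    rcases hl with rfl | rfl
    · rw [if_pos rfl]
      simp [hrdef]
    · rw [if_neg hij.symm]
      have : a * r = m' l - m l := by rw [ha, div_mul_cancel₀ _ hr]
      rw [this]
      simp
  -- values at the second double point
  have hev : ∀ F : MvPolynomial (Fin 2) k, fmEv a r (aeval (fmPt i m) F) = aeval m' F := by
    intro F
    rw [fmEv_aeval, hpt]
  have hH : g2.eval a + r * g3.eval a + r ^ 2 * g4.eval a = 0 := by
    have e := hev G
    rw [h0, hP] at e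
    simp only [fmEv, map_add, map_mul, map_pow, Polynomial.coe_eval₂RingHom, Polynomial.eval₂_C,
      Polynomial.eval₂_X, RingHom.coe_coe, Polynomial.coe_aeval_eq_eval] at e
    have e2 : r ^ 2 * (g2.eval a + r * g3.eval a + r ^ 2 * g4.eval a) = 0 := by
      linear_combination e
    exact (mul_eq_zero.1 e2).resolve_left (pow_ne_zero 2 hr)
  have hHr : g3.eval a + 2 * r * g4.eval a = 0 := by
    have e : fmEv a r (Polynomial.derivative (aeval (fmPt i m) G)) = 0 := by
      rw [fm_deriv hij, map_add, map_mul, hev, hev, hi, hj]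
      simp
    rw [hP] at e
    simp only [fmEv, Polynomial.derivative_add, Polynomial.derivative_mul, Polynomial.derivative_C,
      Polynomial.derivative_X_pow, zero_mul, zero_add, map_add, map_mul, map_pow,
      Polynomial.coe_eval₂RingHom, Polynomial.eval₂_C, Polynomial.eval₂_X, RingHom.coe_coe,
      Polynomial.coe_aeval_eq_eval, map_natCast] at e
    have e2 : r ^ 2 * (g3.eval a + 2 * r * g4.eval a) = 0 := by
      push_cast at e
      linear_combination e - 2 * r * hH
    exact (mul_eq_zero.1 e2).resolve_left (pow_ne_zero 2 hr)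
  have hln : Polynomial.C r ^ 2 * (g2 + Polynomial.C r * g3 + Polynomial.C r ^ 2 * g4) =
      aeval (fmLn i m r) G := by
    rw [← fm_eval, hP]
    simp only [Polynomial.eval_add, Polynomial.eval_mul, Polynomial.eval_C, Polynomial.eval_pow,
      Polynomial.eval_X]
    ring
  have hD : (Polynomial.derivative (g2 + Polynomial.C r * g3 + Polynomial.C r ^ 2 * g4)).eval a = 0 := by
    have e : (Polynomial.derivative (aeval (fmLn i m r) G)).eval a = 0 := by
      rw [fm_lnDeriv hij, Polynomial.eval_mul]
      have e1 : (aeval (fmLn i m r) (pderiv j G)).eval a = 0 := by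
        rw [← fm_eval, fmEv_self, hev, hj]
      rw [e1, mul_zero]
    rw [← hln, Polynomial.derivative_mul, ← Polynomial.C_pow, Polynomial.derivative_C, zero_mul, zero_add,
      Polynomial.eval_mul, Polynomial.eval_C] at e
    rw [← Polynomial.C_pow]
    exact (mul_eq_zero.1 e).resolve_left (pow_ne_zero 2 hr)
  -- divisibility
  have hdiv : (Polynomial.X - Polynomial.C a) ^ 2 ∣
      g2 + Polynomial.C r * g3 + Polynomial.C r ^ 2 * g4 := by
    set h := g2 + Polynomial.C r * g3 + Polynomial.C r ^ 2 * g4 with hh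
    have h0' : h.eval a = 0 := by
      rw [hh]
      simp only [Polynomial.eval_add, Polynomial.eval_mul, Polynomial.eval_C, Polynomial.eval_pow]
      exact hH
    obtain ⟨u, hu⟩ := Polynomial.dvd_iff_isRoot.2 h0'
    have hu0 : u.eval a = 0 := by
      rw [hu, Polynomial.derivative_mul] at hD
      simpa using hD
    obtain ⟨v, hv⟩ := Polynomial.dvd_iff_isRoot.2 hu0
    exact ⟨v, by rw [hu, hv]; ring⟩
  have hdiv1 : (Polynomial.X - Polynomial.C a) ∣ g3 + 2 * Polynomial.C r * g4 := by
    rw [Polynomial.dvd_iff_isRoot, Polynomial.IsRoot.def]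
    simp only [Polynomial.eval_add, Polynomial.eval_mul, Polynomial.eval_C, Polynomial.eval_ofNat]
    exact hHr
  obtain ⟨u, hu⟩ := hdiv
  obtain ⟨v, hv⟩ := hdiv1
  have hQ : g3 ^ 2 - 4 * g2 * g4 = (Polynomial.X - Polynomial.C a) ^ 2 * (v ^ 2 - 4 * g4 * u) := by
    have e1 : g3 ^ 2 - 4 * g2 * g4 = (g3 + 2 * Polynomial.C r * g4) ^ 2 -
        4 * g4 * (g2 + Polynomial.C r * g3 + Polynomial.C r ^ 2 * g4) := by ring
    rw [e1, hv, hu]
    ring
  refine ⟨a, v ^ 2 - 4 * g4 * u, ?_, hQ⟩
  by_cases hz : v ^ 2 - 4 * g4 * u = 0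
  · rw [hz]
    simp
  have hd6 : (g3 ^ 2 - 4 * g2 * g4).natDegree ≤ 6 := by
    refine (Polynomial.natDegree_sub_le _ _).trans (max_le ?_ ?_)
    · exact Polynomial.natDegree_pow_le.trans (by omega)
    · refine Polynomial.natDegree_mul_le.trans ?_
      have := Polynomial.natDegree_mul_le (p := (4 : Polynomial k)) (q := g2)
      have h4' : (4 : Polynomial k).natDegree = 0 := Polynomial.natDegree_ofNat 4
      omega
  rw [hQ, Polynomial.natDegree_mul (pow_ne_zero 2 (Polynomial.X_sub_C_ne_zero a)) hz,
    Polynomial.natDegree_pow, Polynomial.natDegree_X_sub_C] at hd6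
  omega

end poly

section model

variable {L : Type} [Field L] [Algebra ℂ L]

theorem fm_mem (k F : IntermediateField ℂ L) (hk : ∀ a ∈ k, a ∈ F) (T : L) (hT : T ∈ F)
    (P : Polynomial k) : Polynomial.aeval T P ∈ F := by
  rw [Polynomial.aeval_eq_sum_range]
  refine sum_mem fun i _ => ?_
  rw [Algebra.smul_def]
  exact F.mul_mem (hk _ (P.coeff i).2) (pow_mem hT i)

/-- **MODEL.** a plane quartic over `k` with two double points in `k`, generic point `p`, has the model
`[1 : T : T² : w]`, `w² = q(T)`, `deg q ≤ 4`. -/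
theorem quartic_model (k : IntermediateField ℂ L) (G : MvPolynomial (Fin 2) k)
    (hG : G.totalDegree ≤ 4) (m1 m2 : Fin 2 → k) (p : Fin 2 → L) (δ : Derivation ℂ L L)
    (hk : ∀ a ∈ k, δ a = 0)
    (h1 : eval m1 G = 0) (h1x : eval m1 (pderiv 0 G) = 0) (h1y : eval m1 (pderiv 1 G) = 0)
    (h2 : eval m2 G = 0) (h2x : eval m2 (pderiv 0 G) = 0) (h2y : eval m2 (pderiv 1 G) = 0)
    (hp : aeval p G = 0) (hx : δ (p 0) = aeval p (pderiv 1 G)) (hy : δ (p 1) = - aeval p (pderiv 0 G))
    (hY : m1 1 ≠ m2 1) (hp1 : p 1 ≠ (m1 1 : L))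
    (hW : (p 0 - (m1 0 : L)) * aeval p (pderiv 0 G) + (p 1 - (m1 1 : L)) * aeval p (pderiv 1 G) ≠ 0)
    (hgen : IntermediateField.adjoin ℂ ((k : Set L) ∪ Set.range p) = ⊤) :
    ∃ T w : L, AlmostHomogeneous k (![1, T, T ^ 2, w] : Fin (3 + 1) → L) := by
  have hL0 : CharZero L := charZero_of_injective_algebraMap (algebraMap ℂ L).injective
  have hk0 : CharZero k := charZero_of_injective_algebraMap (algebraMap ℂ k).injective
  simp only [← MvPolynomial.coe_aeval_eq_eval, RingHom.coe_coe] at h1 h1x h1y h2 h2x h2y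
  have hij : (1 : Fin 2) ≠ 0 := by decide
  obtain ⟨g2, g3, g4, d2, d3, d4, hP⟩ := fm_shape hij m1 G hG h1 h1y h1x
  obtain ⟨a, Q, hQ4, hQ⟩ := fm_disc hij m1 m2 G h2 h2y h2x hY g2 g3 g4 hP d2 d3 d4
  set r : L := p 1 - (m1 1 : L) with hr
  have hr0 : r ≠ 0 := sub_ne_zero.2 hp1
  set T : L := (p 0 - (m1 0 : L)) / r with hT
  have hTr : T * r = p 0 - (m1 0 : L) := by rw [hT, div_mul_cancel₀ _ hr0]
  have hpt : (fun l => if l = 1 then algebraMap k L (m1 l) + r else algebraMap k L (m1 l) + T * r) = p := by
    funext l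
    rcases fm_cases hij l with rfl | rfl
    · rw [if_pos rfl, hr]
      exact add_sub_cancel _ _
    · rw [if_neg hij.symm, hTr]
      exact add_sub_cancel _ _
  have hev : ∀ F : MvPolynomial (Fin 2) k, fmEv T r (aeval (fmPt 1 m1) F) = aeval p F := by
    intro F
    rw [fmEv_aeval, hpt]
  have hH : Polynomial.aeval T g2 + r * Polynomial.aeval T g3 + r ^ 2 * Polynomial.aeval T g4 = 0 := by
    have e := hev G
    rw [hp, hP] at e
    simp only [fmEv, map_add, map_mul, map_pow, Polynomial.coe_eval₂RingHom, Polynomial.eval₂_C,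
      Polynomial.eval₂_X, RingHom.coe_coe] at e
    have e2 : r ^ 2 * (Polynomial.aeval T g2 + r * Polynomial.aeval T g3 +
        r ^ 2 * Polynomial.aeval T g4) = 0 := by
      linear_combination e
    exact (mul_eq_zero.1 e2).resolve_left (pow_ne_zero 2 hr0)
  have hHr : r ^ 2 * (Polynomial.aeval T g3 + 2 * r * Polynomial.aeval T g4) =
      aeval p (pderiv 1 G) + T * aeval p (pderiv 0 G) := by
    have e : fmEv T r (Polynomial.derivative (aeval (fmPt 1 m1) G)) =
        aeval p (pderiv 1 G) + T * aeval p (pderiv 0 G) := by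
      rw [fm_deriv hij, map_add, map_mul, hev, hev]
      congr 2
      simp [fmEv]
    rw [← e, hP]
    simp only [fmEv, Polynomial.derivative_add, Polynomial.derivative_mul, Polynomial.derivative_C,
      Polynomial.derivative_X_pow, zero_mul, zero_add, map_add, map_mul, map_pow,
      Polynomial.coe_eval₂RingHom, Polynomial.eval₂_C, Polynomial.eval₂_X, RingHom.coe_coe,
      map_natCast]
    push_cast
    linear_combination -2 * r * hH
  set W : L := Polynomial.aeval T g3 + 2 * r * Polynomial.aeval T g4 with hWdef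
  have hE : (p 0 - (m1 0 : L)) * aeval p (pderiv 0 G) + r * aeval p (pderiv 1 G) = r * (r ^ 2 * W) := by
    rw [hHr, ← hTr]
    ring
  have hW0 : W ≠ 0 := by
    intro h
    apply hW
    rw [hE, h]
    ring
  -- the slope is transcendental
  have hδT : δ T ≠ 0 := by
    intro h
    have e1 : δ (T * r) = δ (p 0) := by
      rw [hTr, map_sub, hk _ (m1 0).2, sub_zero]
    have e2 : δ r = δ (p 1) := by
      rw [hr, map_sub, hk _ (m1 1).2, sub_zero]
    rw [Derivation.leibniz, h, smul_zero, add_zero, smul_eq_mul, e2, hx, hy] at e1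
    apply hW
    rw [← hTr]
    linear_combination -r * e1
  have hTt : ¬ IsAlgebraic k T := fun h => hδT (Pool.Agent.DP.der_alg k δ hk h)
  have hTa : T - (a : L) ≠ 0 := by
    intro h0
    apply hTt
    rw [sub_eq_zero.1 h0]
    exact isAlgebraic_algebraMap a
  have hW2 : W ^ 2 = (T - (a : L)) ^ 2 * Polynomial.aeval T Q := by
    have e1 : Polynomial.aeval T (g3 ^ 2 - 4 * g2 * g4) = (T - (a : L)) ^ 2 * Polynomial.aeval T Q := by
      rw [hQ, map_mul, map_pow, map_sub, Polynomial.aeval_X, Polynomial.aeval_C]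
      rfl
    rw [← e1, hWdef]
    simp only [map_sub, map_pow, map_mul, map_ofNat]
    linear_combination 4 * Polynomial.aeval T g4 * hH
  set w : L := W / (T - (a : L)) with hw
  have hw0 : w ≠ 0 := div_ne_zero hW0 hTa
  have hwW : w * (T - (a : L)) = W := by rw [hw, div_mul_cancel₀ _ hTa]
  have hw2 : w ^ 2 = (Q.map (algebraMap k L)).eval T := by
    rw [Polynomial.eval_map_algebraMap, hw, div_pow, hW2, mul_div_cancel_left₀ _ (pow_ne_zero 2 hTa)]
  have hind : AlgebraicIndependent k (fun _ : Unit => T) := by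
    rw [algebraicIndependent_unique_type_iff]
    exact hTt
  obtain ⟨D, hD⟩ := Pool.Agent.Campana.exists_derivation (k := k) (K := L) _ hind (fun _ => w)
  have hgen' : IntermediateField.adjoin ℂ ((k : Set L) ∪ {T, w}) = ⊤ := by
    rw [eq_top_iff, ← hgen, IntermediateField.adjoin_le_iff]
    set F := IntermediateField.adjoin ℂ ((k : Set L) ∪ {T, w}) with hF
    have hkF : ∀ a ∈ k, a ∈ F := fun a ha =>
      IntermediateField.subset_adjoin _ _ (Or.inl ha)
    have hTF : T ∈ F := IntermediateField.subset_adjoin _ _ (Or.inr (Or.inl rfl))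
    have hwF : w ∈ F := IntermediateField.subset_adjoin _ _ (Or.inr (Or.inr rfl))
    have h2F : (2 : L) ∈ F := by
      have := natCast_mem F 2
      simpa using this
    have hWF : W ∈ F := by
      rw [← hwW]
      exact F.mul_mem hwF (F.sub_mem hTF (hkF _ a.2))
    have g2F := fm_mem k F hkF T hTF g2
    have g3F := fm_mem k F hkF T hTF g3
    have g4F := fm_mem k F hkF T hTF g4
    have hrF : r ∈ F := by
      by_cases h4 : Polynomial.aeval T g4 = 0
      · have h3 : Polynomial.aeval T g3 ≠ 0 := by
          intro h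
          apply hW0
          rw [hWdef, h4, h]
          ring
        have e : r = - Polynomial.aeval T g2 / Polynomial.aeval T g3 := by
          rw [eq_div_iff h3]
          rw [h4] at hH
          linear_combination hH
        rw [e]
        exact F.div_mem (F.neg_mem g2F) g3F
      · have e : r = (W - Polynomial.aeval T g3) / (2 * Polynomial.aeval T g4) := by
          rw [eq_div_iff (mul_ne_zero two_ne_zero h4), hWdef]
          ring
        rw [e]
        exact F.div_mem (F.sub_mem hWF g3F) (F.mul_mem h2F g4F)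
    rintro x (hx' | ⟨l, rfl⟩)
    · exact hkF x hx'
    · rcases fm_cases hij l with rfl | rfl
      · have e : p 1 = (m1 1 : L) + r := by rw [hr]; ring
        rw [e]
        exact F.add_mem (hkF _ (m1 1).2) hrF
      · have e : p 0 = (m1 0 : L) + T * r := by rw [hTr]; ring
        rw [e]
        exact F.add_mem (hkF _ (m1 0).2) (F.mul_mem hTF hrF)
  refine ⟨T, w, (Pool.Agent.DP.homogeneous k T w (Q.map (algebraMap k L))
    (fun n => by rw [Polynomial.coeff_map]; exact (Q.coeff n).2) ((Polynomial.natDegree_map_le).trans hQ4)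
    hTt hw2 hw0 hgen' (D.restrictScalars ℂ) (fun a ha => ?_) (hD ())).1⟩
  exact D.map_algebraMap (⟨a, ha⟩ : k)

end model

end Pool.Agent.QU
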