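import Mathlib

/-! Restriction of a derivation of an algebraically closed field to a finite extension of `K` generated
by the unknowns. -/

set_option autoImplicit false

namespace Pool.Agent.QU

section gen

variable {O : Type} [Field O] [Algebra ℂ O]

/-- a derivation which maps the generators of a field into `M` maps the field into `M` -/
theorem der_mem (s : Set O) (M : IntermediateField ℂ O) (δ : Derivation ℂ O O)
    (hs : ∀ a ∈ s, a ∈ M) (h : ∀ a ∈ s, δ a ∈ M) :
    ∀ a ∈ IntermediateField.adjoin ℂ s, δ a ∈ M := by
  have hle : IntermediateField.adjoin ℂ s ≤ M := IntermediateField.adjoin_le_iff.2 hs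
  intro a ha
  induction ha using IntermediateField.adjoin_induction with
  | mem x hx => exact h x hx
  | algebraMap r =>
    rw [Derivation.map_algebraMap]
    exact zero_mem M
  | add x y hx hy h1 h2 =>
    rw [map_add]
    exact add_mem h1 h2
  | inv x hx h1 =>
    rw [Derivation.leibniz_inv]
    exact mul_mem (neg_mem (pow_mem (inv_mem (hle hx)) 2)) h1
  | mul x y hx hy h1 h2 =>
    rw [Derivation.leibniz]
    exact add_mem (mul_mem (hle hx) h2) (mul_mem (hle hy) h1)

/-- restriction of a derivation to a subfield stable under it -/
theorem exists_restr {K : Type} [Field K] [Algebra ℂ K] [Algebra K O] [IsScalarTower ℂ K O]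
    (L : IntermediateField K O) (δ : Derivation ℂ O O) (h : ∀ a ∈ L, δ a ∈ L) :
    ∃ D : Derivation ℂ L L, ∀ a : L, (D a : O) = δ a := by
  let D : Derivation ℂ L L :=
    { toFun := fun a => ⟨δ a, h a a.2⟩
      map_add' := fun a b => Subtype.ext (by
        change δ ((a : O) + b) = δ a + δ b
        exact map_add δ _ _)
      map_smul' := fun c a => Subtype.ext (by
        change δ (c • (a : O)) = c • δ a
        exact Derivation.map_smul δ c (a : O))
      map_one_eq_zero' := Subtype.ext (by
        change δ (1 : O) = 0
        exact δ.map_one_eq_zero)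
      leibniz' := fun a b => Subtype.ext (by
        change δ ((a : O) * b) = (a : O) * δ b + (b : O) * δ a
        exact δ.leibniz _ _) }
  exact ⟨D, fun a => rfl⟩

end gen

section tower

variable {K O : Type} [Field K] [Field O] [Algebra ℂ K] [Algebra ℂ O] [Algebra K O]
  [IsScalarTower ℂ K O]

/-- the field generated over `K` is generated over `ℂ` by generators of `K` and the new elements -/
theorem mem_adjoin_iff (g : Set K) (hg : IntermediateField.adjoin ℂ g = ⊤) (s : Set O) (a : O) :
    a ∈ IntermediateField.adjoin K s ↔
      a ∈ IntermediateField.adjoin ℂ (algebraMap K O '' g ∪ s) := by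
  have hK : ∀ b : K, algebraMap K O b ∈ IntermediateField.adjoin ℂ (algebraMap K O '' g ∪ s) := by
    intro b
    have hb : b ∈ IntermediateField.adjoin ℂ g := by
      rw [hg]
      exact IntermediateField.mem_top
    induction hb using IntermediateField.adjoin_induction with
    | mem x hx => exact IntermediateField.subset_adjoin _ _ (Or.inl ⟨x, hx, rfl⟩)
    | algebraMap r =>
      rw [← IsScalarTower.algebraMap_apply]
      exact IntermediateField.algebraMap_mem _ r
    | add x y hx hy h1 h2 =>
      rw [map_add]
      exact add_mem h1 h2
    | inv x hx h1 =>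
      rw [map_inv₀]
      exact inv_mem h1
    | mul x y hx hy h1 h2 =>
      rw [map_mul]
      exact mul_mem h1 h2
  constructor
  · intro ha
    induction ha using IntermediateField.adjoin_induction with
    | mem x hx => exact IntermediateField.subset_adjoin _ _ (Or.inr hx)
    | algebraMap r => exact hK r
    | add x y hx hy h1 h2 => exact add_mem h1 h2
    | inv x hx h1 => exact inv_mem h1
    | mul x y hx hy h1 h2 => exact mul_mem h1 h2
  · intro ha
    induction ha using IntermediateField.adjoin_induction with
    | mem x hx =>
      rcases hx with ⟨b, _, rfl⟩ | hx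
      · exact IntermediateField.algebraMap_mem _ b
      · exact IntermediateField.subset_adjoin _ _ hx
    | algebraMap r =>
      rw [IsScalarTower.algebraMap_apply ℂ K O]
      exact IntermediateField.algebraMap_mem _ _
    | add x y hx hy h1 h2 => exact add_mem h1 h2
    | inv x hx h1 => exact inv_mem h1
    | mul x y hx hy h1 h2 => exact mul_mem h1 h2

/-- generation inside the intermediate field itself -/
theorem adjoin_self (g : Set K) (hg : IntermediateField.adjoin ℂ g = ⊤) {n : ℕ} (y : Fin n → O)
    (F : IntermediateField ℂ (IntermediateField.adjoin K (Set.range y)))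
    (hF1 : ∀ b ∈ g, algebraMap K (IntermediateField.adjoin K (Set.range y)) b ∈ F)
    (hF2 : ∀ i, (⟨y i, IntermediateField.subset_adjoin _ _ ⟨i, rfl⟩⟩ :
      IntermediateField.adjoin K (Set.range y)) ∈ F) : F = ⊤ := by
  have hK : ∀ b : K, algebraMap K (IntermediateField.adjoin K (Set.range y)) b ∈ F := by
    intro b
    have hb : b ∈ IntermediateField.adjoin ℂ g := by
      rw [hg]
      exact IntermediateField.mem_top
    induction hb using IntermediateField.adjoin_induction with
    | mem x hx => exact hF1 x hx
    | algebraMap r =>
      rw [← IsScalarTower.algebraMap_apply]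
      exact IntermediateField.algebraMap_mem _ r
    | add x y hx hy h1 h2 =>
      rw [map_add]
      exact add_mem h1 h2
    | inv x hx h1 =>
      rw [map_inv₀]
      exact inv_mem h1
    | mul x y hx hy h1 h2 =>
      rw [map_mul]
      exact mul_mem h1 h2
  have hmem : ∀ (a : O) (ha : a ∈ IntermediateField.adjoin K (Set.range y)),
      (⟨a, ha⟩ : IntermediateField.adjoin K (Set.range y)) ∈ F := by
    intro a ha
    induction ha using IntermediateField.adjoin_induction with
    | mem x hx =>
      obtain ⟨i, rfl⟩ := hx
      exact hF2 i
    | algebraMap r => exact hK r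
    | add x y hx hy h1 h2 => exact add_mem h1 h2
    | inv x hx h1 => exact inv_mem h1
    | mul x y hx hy h1 h2 => exact mul_mem h1 h2
  rw [eq_top_iff]
  intro a _
  exact hmem a.1 a.2

omit [Algebra ℂ K] [Algebra ℂ O] [IsScalarTower ℂ K O] in
/-- the unknowns generate a finite extension -/
theorem finite_adjoin [Algebra.IsAlgebraic K O] {n : ℕ} (y : Fin n → O) :
    FiniteDimensional K (IntermediateField.adjoin K (Set.range y)) :=
  IntermediateField.finiteDimensional_adjoin fun a _ => (Algebra.IsAlgebraic.isAlgebraic a).isIntegral

end tower

end Pool.Agent.QU
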