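import Pool.Agent.Lib_MP_1209e6_qu.Defs

/-! The plane section of a surface. -/

set_option autoImplicit false

open MvPolynomial

noncomputable section

namespace Pool.Agent.QU

/-- linear substitutions do not raise the total degree -/
theorem totalDegree_aeval_lin {σ τ S : Type} [CommRing S] [Algebra ℂ S]
    (φ : σ → MvPolynomial τ S) (hφ : ∀ i, (φ i).totalDegree ≤ 1) (f : MvPolynomial σ ℂ) :
    (aeval φ f).totalDegree ≤ f.totalDegree := by
  classical
  rw [aeval_def, eval₂_eq]
  refine totalDegree_finsetSum_le fun m hm => ?_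
  have h1 : (∏ i ∈ m.support, φ i ^ m i).totalDegree ≤ f.totalDegree := by
    refine (totalDegree_finsetProd _ _).trans ?_
    refine le_trans (Finset.sum_le_sum fun i _ => ?_) (le_totalDegree hm)
    refine (totalDegree_pow _ _).trans ?_
    have := Nat.mul_le_mul_left (m i) (hφ i)
    simpa using this
  have h2 : (algebraMap ℂ (MvPolynomial τ S) (coeff m f)).totalDegree = 0 := by
    rw [MvPolynomial.algebraMap_apply, totalDegree_C]
  refine (totalDegree_mul _ _).trans ?_
  rw [h2, zero_add]
  exact h1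

section

variable {k : Type} [Field k] [Algebra ℂ k]

/-- the coordinates on the plane -/
def pl (y : Fin 7 → k) : Fin 3 → MvPolynomial (Fin 2) k :=
  ![X 0, X 1, C (y 0) * X 0 + C (y 1) * X 1 + C (y 2)]

/-- the section of `f = 0` by the plane -/
def sec (f : MvPolynomial (Fin 3) ℂ) (y : Fin 7 → k) : MvPolynomial (Fin 2) k := aeval (pl y) f

theorem sec_deg (f : MvPolynomial (Fin 3) ℂ) (y : Fin 7 → k) :
    (sec f y).totalDegree ≤ f.totalDegree := by
  refine totalDegree_aeval_lin _ (fun i => ?_) f
  have hC : ∀ (c : k) (j : Fin 2), (C c * X j : MvPolynomial (Fin 2) k).totalDegree ≤ 1 := by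
    intro c j
    refine (totalDegree_mul _ _).trans ?_
    rw [totalDegree_C, totalDegree_X]
  fin_cases i
  · change (X 0 : MvPolynomial (Fin 2) k).totalDegree ≤ 1
    rw [totalDegree_X]
  · change (X 1 : MvPolynomial (Fin 2) k).totalDegree ≤ 1
    rw [totalDegree_X]
  · change (C (y 0) * X 0 + C (y 1) * X 1 + C (y 2) : MvPolynomial (Fin 2) k).totalDegree ≤ 1
    refine (totalDegree_add _ _).trans (max_le ?_ ?_)
    · exact (totalDegree_add _ _).trans (max_le (hC _ _) (hC _ _))
    · rw [totalDegree_C]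
      exact Nat.zero_le _

theorem aeval_sec {A : Type} [Field A] [Algebra ℂ A] [Algebra k A] [IsScalarTower ℂ k A]
    (f : MvPolynomial (Fin 3) ℂ) (y : Fin 7 → k) (p : Fin 2 → A) :
    aeval p (sec f y) = aeval (npt (fun j => algebraMap k A (y j)) (p 0) (p 1)) f := by
  have h : aeval (npt (fun j => algebraMap k A (y j)) (p 0) (p 1)) f =
      ((aeval p : MvPolynomial (Fin 2) k →ₐ[k] A).restrictScalars ℂ) (aeval (pl y) f) := by
    rw [MvPolynomial.comp_aeval_apply]
    congr 2
    funext i
    fin_cases i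
    · simp [npt, pl]
    · simp [npt, pl]
    · simp [npt, pl]
  rw [h]
  rfl

theorem pderiv_sec (f : MvPolynomial (Fin 3) ℂ) (y : Fin 7 → k) :
    pderiv 0 (sec f y) = sec (pderiv 0 f) y + C (y 0) * sec (pderiv 2 f) y ∧
      pderiv 1 (sec f y) = sec (pderiv 1 f) y + C (y 1) * sec (pderiv 2 f) y := by
  unfold sec
  induction f using MvPolynomial.induction_on with
  | C a =>
    simp [MvPolynomial.algebraMap_apply]
  | add p q hp hq =>
    constructor
    · rw [map_add, map_add, hp.1, hq.1]
      simp only [map_add]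
      ring
    · rw [map_add, map_add, hp.2, hq.2]
      simp only [map_add]
      ring
  | mul_X p n hp =>
    constructor
    · rw [map_mul, Derivation.leibniz, hp.1]
      fin_cases n
      · simp [pl, pderiv_X]
        ring
      · simp [pl, pderiv_X]
        ring
      · simp [pl, pderiv_X]
        ring
    · rw [map_mul, Derivation.leibniz, hp.2]
      fin_cases n
      · simp [pl, pderiv_X]
        ring
      · simp [pl, pderiv_X]
        ring
      · simp [pl, pderiv_X]
        ring

/-- derivatives of the section -/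
theorem aeval_pderiv0_sec {A : Type} [Field A] [Algebra ℂ A] [Algebra k A] [IsScalarTower ℂ k A]
    (f : MvPolynomial (Fin 3) ℂ) (y : Fin 7 → k) (p : Fin 2 → A) :
    aeval p (pderiv 0 (sec f y)) = gX (map (algebraMap ℂ A) f)
      (npt (fun j => algebraMap k A (y j)) (p 0) (p 1)) (fun j => algebraMap k A (y j)) := by
  rw [(pderiv_sec f y).1, map_add, map_mul, aeval_sec, aeval_sec, aeval_C, gX, pderiv_map, pderiv_map,
    eval_map, eval_map]
  rfl

theorem aeval_pderiv1_sec {A : Type} [Field A] [Algebra ℂ A] [Algebra k A] [IsScalarTower ℂ k A]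
    (f : MvPolynomial (Fin 3) ℂ) (y : Fin 7 → k) (p : Fin 2 → A) :
    aeval p (pderiv 1 (sec f y)) = gY (map (algebraMap ℂ A) f)
      (npt (fun j => algebraMap k A (y j)) (p 0) (p 1)) (fun j => algebraMap k A (y j)) := by
  rw [(pderiv_sec f y).2, map_add, map_mul, aeval_sec, aeval_sec, aeval_C, gY, pderiv_map, pderiv_map,
    eval_map, eval_map]
  rfl

end

section hom

variable {A B : Type} [CommRing A] [CommRing B] [Algebra ℂ A] [Algebra ℂ B] (φ : A →ₐ[ℂ] B)

theorem hom_npt (y : Fin 7 → A) (a b : A) :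
    (fun i => φ (npt y a b i)) = npt (fun j => φ (y j)) (φ a) (φ b) := by
  funext i
  fin_cases i
  · rfl
  · rfl
  · simp [npt]

theorem hom_eval (f : MvPolynomial (Fin 3) ℂ) (Q : Fin 3 → A) :
    φ (eval Q (map (algebraMap ℂ A) f)) = eval (fun i => φ (Q i)) (map (algebraMap ℂ B) f) := by
  rw [eval_map, eval_map]
  change φ (aeval Q f) = aeval (fun i => φ (Q i)) f
  rw [MvPolynomial.comp_aeval_apply]

theorem hom_gX (f : MvPolynomial (Fin 3) ℂ) (Q : Fin 3 → A) (y : Fin 7 → A) :
    φ (gX (map (algebraMap ℂ A) f) Q y) =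
      gX (map (algebraMap ℂ B) f) (fun i => φ (Q i)) (fun j => φ (y j)) := by
  unfold gX
  rw [map_add, map_mul, pderiv_map, pderiv_map, pderiv_map, pderiv_map, hom_eval, hom_eval]

theorem hom_gY (f : MvPolynomial (Fin 3) ℂ) (Q : Fin 3 → A) (y : Fin 7 → A) :
    φ (gY (map (algebraMap ℂ A) f) Q y) =
      gY (map (algebraMap ℂ B) f) (fun i => φ (Q i)) (fun j => φ (y j)) := by
  unfold gY
  rw [map_add, map_mul, pderiv_map, pderiv_map, pderiv_map, pderiv_map, hom_eval, hom_eval]

end hom

end Pool.Agent.QU
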