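import Pool.Agent.Lib_MP_1209e6_qu.Trans
import Pool.Agent.Lib_MP_1209e6_qu.FamModel
import Pool.Agent.Lib_MP_1209e6_qu.Restr
import Pool.Agent.Lib_MP_1209e6_qu.Sec

/-! PIECE FAM (helper3): the covering family of a nondegenerate plane. -/

set_option autoImplicit false

open MvPolynomial Pool.Agent.CampanaFlow

noncomputable section

namespace Pool.Agent.QU

/-- the point of the surface lies in the plane -/
theorem npt_self {O : Type} [Field O] (P : Fin 3 → O) (y : Fin 7 → O)
    (h : P 2 - (y 0 * P 0 + y 1 * P 1 + y 2) = 0) : npt y (P 0) (P 1) = P := by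
  funext i
  fin_cases i
  · rfl
  · rfl
  · exact (sub_eq_zero.1 h).symm

/-- `L = K(y) ⊆ O`, `k = ℂ(y)`; `δ` maps `L = ℂ(x, y)` into `L` (`trans`: `δ y = 0`);
`G (X, Y) = f (X, Y, y 0 X + y 1 Y + y 2)`, `quartic_model`. -/
theorem fam {K O : Type} [Field K] [Algebra ℂ K] [Field O] [Algebra ℂ O] [Algebra K O]
    [IsScalarTower ℂ K O] [Algebra.IsAlgebraic K O] (x : Fin 3 → K)
    (hgen : IntermediateField.adjoin ℂ (Set.range x) = ⊤) (f : MvPolynomial (Fin 3) ℂ)
    (hf4 : f.totalDegree ≤ 4) (y : Fin 7 → O) (h : Sol f (fun i => algebraMap K O (x i)) y)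
    (δ : Derivation ℂ O O) (hδ : ∀ i, δ (algebraMap K O (x i)) =
      tv (map (algebraMap ℂ O) f) (fun i => algebraMap K O (x i)) y i) :
    ∃ (L : IntermediateField K O) (k : IntermediateField ℂ L) (N : ℕ) (z : Fin (N + 1) → L),
      FiniteDimensional K L ∧ AlmostHomogeneous k z ∧ ∀ u ∈ k, δ (u : O) = 0 := by
  have hy0 := trans f _ y h δ hδ
  have hroot := h.root
  have e0 := h.eqs 0
  have e1 := h.eqs 1
  have e2 := h.eqs 2
  have e3 := h.eqs 3
  have e4 := h.eqs 4
  have e5 := h.eqs 5
  have e6 := h.eqs 6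
  have hop := h.op_ne
  simp only [sys, Matrix.cons_val] at e0 e1 e2 e3 e4 e5 e6
  set P : Fin 3 → O := fun i => algebraMap K O (x i) with hP
  have hPself : npt y (P 0) (P 1) = P := npt_self P y e0
  -- the field `L`
  let L : IntermediateField K O := IntermediateField.adjoin K (Set.range y)
  have hyL : ∀ j, y j ∈ L := fun j => IntermediateField.subset_adjoin _ _ ⟨j, rfl⟩
  let yL : Fin 7 → L := fun j => ⟨y j, hyL j⟩
  let xL : Fin 3 → L := fun i => algebraMap K L (x i)
  have hxO : ∀ i, ((xL i : L) : O) = P i := fun i => rfl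
  have hPL : ∀ i, P i ∈ L := fun i => (xL i).2
  -- `δ` preserves `L`
  have hevL : ∀ g : MvPolynomial (Fin 3) ℂ, eval P (map (algebraMap ℂ O) g) ∈ L := by
    intro g
    have h1 : eval P (map (algebraMap ℂ O) g) = ((aeval xL g : L) : O) := by
      rw [eval_map]
      change aeval P g = L.val.restrictScalars ℂ (aeval xL g)
      rw [MvPolynomial.comp_aeval_apply]
      rfl
    rw [h1]
    exact (aeval xL g).2
  have hgXL : gX (map (algebraMap ℂ O) f) P y ∈ L := by
    unfold gX
    rw [pderiv_map, pderiv_map]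
    exact add_mem (hevL _) (mul_mem (hyL 0) (hevL _))
  have hgYL : gY (map (algebraMap ℂ O) f) P y ∈ L := by
    unfold gY
    rw [pderiv_map, pderiv_map]
    exact add_mem (hevL _) (mul_mem (hyL 1) (hevL _))
  have htvL : ∀ i, tv (map (algebraMap ℂ O) f) P y i ∈ L := by
    intro i
    fin_cases i
    · exact hgYL
    · exact neg_mem hgXL
    · exact sub_mem (mul_mem (hyL 0) hgYL) (mul_mem (hyL 1) hgXL)
  have hδL : ∀ a ∈ L, δ a ∈ L := by
    intro a ha
    refine der_mem (algebraMap K O '' (Set.range x) ∪ Set.range y) (L.restrictScalars ℂ) δ ?_ ?_ a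
      ((mem_adjoin_iff (Set.range x) hgen (Set.range y) a).1 ha)
    · rintro b (⟨_, ⟨i, rfl⟩, rfl⟩ | ⟨j, rfl⟩)
      · exact hPL i
      · exact hyL j
    · rintro b (⟨_, ⟨i, rfl⟩, rfl⟩ | ⟨j, rfl⟩)
      · rw [hδ i]
        exact htvL i
      · rw [hy0 j]
        exact zero_mem _
  obtain ⟨D, hD⟩ := exists_restr L δ hδL
  -- the field `k`
  let k : IntermediateField ℂ L := IntermediateField.adjoin ℂ (Set.range yL)
  have hyk : ∀ j, yL j ∈ k := fun j => IntermediateField.subset_adjoin _ _ ⟨j, rfl⟩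
  let yk : Fin 7 → k := fun j => ⟨yL j, hyk j⟩
  have hDk : ∀ a ∈ k, D a = 0 := by
    intro a ha
    have h1 := der_mem (Set.range yL) k D (fun b hb => IntermediateField.subset_adjoin _ _ hb)
    induction ha using IntermediateField.adjoin_induction with
    | mem b hb =>
      obtain ⟨j, rfl⟩ := hb
      apply Subtype.ext
      rw [hD]
      exact hy0 j
    | algebraMap r => exact D.map_algebraMap r
    | add b c hb hc h1 h2 => rw [map_add, h1, h2, add_zero]
    | inv b hb h1 => rw [Derivation.leibniz_inv, h1, smul_zero]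
    | mul b c hb hc h1 h2 => rw [Derivation.leibniz, h1, h2, smul_zero, smul_zero, add_zero]
  -- transfer of identities from `O`
  let ψ : L →ₐ[ℂ] O := L.val.restrictScalars ℂ
  have hψ : Function.Injective ψ := ψ.injective
  let χ : k →ₐ[ℂ] O := ψ.comp k.val
  have hχ : Function.Injective χ := χ.injective
  have hyχ : (fun j => χ (yk j)) = y := rfl
  have hyψ : (fun j => ψ (algebraMap k L (yk j))) = y := rfl
  -- the section at the nodes
  have node0 : ∀ a b : k, eval (npt y (χ a) (χ b)) (map (algebraMap ℂ O) f) = 0 →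
      eval (![a, b] : Fin 2 → k) (sec f yk) = 0 := by
    intro a b hab
    apply hχ
    rw [map_zero, ← hab, ← MvPolynomial.coe_aeval_eq_eval]
    change χ (aeval (![a, b] : Fin 2 → k) (sec f yk)) = _
    rw [aeval_sec, ← hyχ, ← hom_npt, ← hom_eval, eval_map]
    rfl
  have nodeX : ∀ a b : k, gX (map (algebraMap ℂ O) f) (npt y (χ a) (χ b)) y = 0 →
      eval (![a, b] : Fin 2 → k) (pderiv 0 (sec f yk)) = 0 := by
    intro a b hab
    apply hχ
    rw [map_zero, ← hab, ← MvPolynomial.coe_aeval_eq_eval]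
    change χ (aeval (![a, b] : Fin 2 → k) (pderiv 0 (sec f yk))) = _
    rw [aeval_pderiv0_sec, ← hyχ, ← hom_npt, ← hom_gX]
    rfl
  have nodeY : ∀ a b : k, gY (map (algebraMap ℂ O) f) (npt y (χ a) (χ b)) y = 0 →
      eval (![a, b] : Fin 2 → k) (pderiv 1 (sec f yk)) = 0 := by
    intro a b hab
    apply hχ
    rw [map_zero, ← hab, ← MvPolynomial.coe_aeval_eq_eval]
    change χ (aeval (![a, b] : Fin 2 → k) (pderiv 1 (sec f yk))) = _
    rw [aeval_pderiv1_sec, ← hyχ, ← hom_npt, ← hom_gY]
    rfl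
  -- the section at the generic point
  have hp0 : ψ (aeval (![xL 0, xL 1] : Fin 2 → L) (sec f yk)) = aeval P f := by
    rw [aeval_sec, MvPolynomial.comp_aeval_apply]
    change aeval (fun i => ψ (npt (fun j => algebraMap k L (yk j)) (xL 0) (xL 1) i)) f = _
    rw [hom_npt, hyψ]
    change aeval (npt y (P 0) (P 1)) f = _
    rw [hPself]
  have hpX : ψ (aeval (![xL 0, xL 1] : Fin 2 → L) (pderiv 0 (sec f yk))) =
      gX (map (algebraMap ℂ O) f) P y := by
    rw [aeval_pderiv0_sec, hom_gX, hyψ]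
    change gX _ (fun i => ψ (npt (fun j => algebraMap k L (yk j)) (xL 0) (xL 1) i)) y = _
    rw [hom_npt, hyψ]
    change gX _ (npt y (P 0) (P 1)) y = _
    rw [hPself]
  have hpY : ψ (aeval (![xL 0, xL 1] : Fin 2 → L) (pderiv 1 (sec f yk))) =
      gY (map (algebraMap ℂ O) f) P y := by
    rw [aeval_pderiv1_sec, hom_gY, hyψ]
    change gY _ (fun i => ψ (npt (fun j => algebraMap k L (yk j)) (xL 0) (xL 1) i)) y = _
    rw [hom_npt, hyψ]
    change gY _ (npt y (P 0) (P 1)) y = _
    rw [hPself]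
  have hop1 := left_ne_zero_of_mul (left_ne_zero_of_mul hop)
  have hop2 := right_ne_zero_of_mul (left_ne_zero_of_mul hop)
  have hop3 := right_ne_zero_of_mul hop
  obtain ⟨T, w, hTw⟩ := quartic_model k (sec f yk) ((sec_deg f yk).trans hf4)
    (![yk 3, yk 4] : Fin 2 → k) (![yk 5, yk 6] : Fin 2 → k) (![xL 0, xL 1] : Fin 2 → L) D hDk
    (node0 _ _ e1) (nodeX _ _ e2) (nodeY _ _ e3) (node0 _ _ e4) (nodeX _ _ e5) (nodeY _ _ e6)
    (hψ (by rw [hp0, map_zero, hroot]))
    (by
      apply hψ
      rw [hpY]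
      change ((D (xL 0) : L) : O) = _
      rw [hD]
      exact hδ 0)
    (by
      apply hψ
      rw [map_neg, hpX]
      change ((D (xL 1) : L) : O) = _
      rw [hD]
      exact hδ 1)
    (by
      intro h1
      apply hop3
      have h2 : yk 4 = yk 6 := h1
      have h3 : y 4 = y 6 := congrArg χ h2
      rw [h3, sub_self])
    (by
      intro h1
      apply hop2
      have h3 : P 1 = y 4 := congrArg ψ h1
      rw [h3, sub_self])
    (by
      intro h1
      apply hop1
      have h2 := congrArg ψ h1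
      rw [map_zero, map_add, map_mul, map_mul, hpX, hpY, map_sub, map_sub] at h2
      exact h2)
    (by
      refine adjoin_self (Set.range x) hgen y _ ?_ ?_
      · have hx0 : xL 0 ∈ IntermediateField.adjoin ℂ ((k : Set L) ∪
            Set.range (![xL 0, xL 1] : Fin 2 → L)) :=
          IntermediateField.subset_adjoin _ _ (Or.inr ⟨0, rfl⟩)
        have hx1 : xL 1 ∈ IntermediateField.adjoin ℂ ((k : Set L) ∪
            Set.range (![xL 0, xL 1] : Fin 2 → L)) :=
          IntermediateField.subset_adjoin _ _ (Or.inr ⟨1, rfl⟩)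
        have hyF : ∀ j, yL j ∈ IntermediateField.adjoin ℂ ((k : Set L) ∪
            Set.range (![xL 0, xL 1] : Fin 2 → L)) := fun j =>
          IntermediateField.subset_adjoin _ _ (Or.inl (hyk j))
        have hx2 : xL 2 = yL 0 * xL 0 + yL 1 * xL 1 + yL 2 := by
          apply hψ
          exact sub_eq_zero.1 e0
        rintro _ ⟨i, rfl⟩
        fin_cases i
        · exact hx0
        · exact hx1
        · change xL 2 ∈ _
          rw [hx2]
          exact add_mem (add_mem (mul_mem (hyF 0) hx0) (mul_mem (hyF 1) hx1)) (hyF 2)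
      · intro j
        exact IntermediateField.subset_adjoin _ _ (Or.inl (hyk j)))
  refine ⟨L, k, _, _, finite_adjoin y, hTw, ?_⟩
  intro u hu
  rw [← hD u, hDk u hu]
  rfl

end Pool.Agent.QU
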