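import Pool.Agent.Lib_MP_1209e6_qu.Defs

/-! PIECE TRANS (helper43): a derivation along the section kills the unknowns. -/

set_option autoImplicit false

open MvPolynomial

noncomputable section

namespace Pool.Agent.QU

/-- `s ↦ s + δ(s) ε` -/
def trans_hom {O : Type} [Field O] [Algebra ℂ O] (δ : Derivation ℂ O O) : O →+* DualNumber O where
  toFun s := TrivSqZeroExt.inl s + TrivSqZeroExt.inr (δ s)
  map_one' := by simp
  map_zero' := by simp
  map_mul' s t := by
    rw [Derivation.leibniz]
    refine TrivSqZeroExt.ext ?_ ?_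
    · simp
    · simp [mul_comm]
  map_add' s t := by
    rw [map_add]
    refine TrivSqZeroExt.ext ?_ ?_
    · simp
    · simp

theorem trans_eval {R S : Type} [CommRing R] [CommRing S] (φ : R →+* S) (F : MvPolynomial (Fin 3) R)
    (Q : Fin 3 → R) : eval (fun l => φ (Q l)) (map φ F) = φ (eval Q F) := by
  rw [eval_map, ← coe_eval₂Hom]
  have h : (eval₂Hom φ fun l => φ (Q l)) = φ.comp (eval Q) := by
    refine MvPolynomial.ringHom_ext (fun r => by simp) fun i => by simp
  rw [h]
  rfl

theorem trans_npt {R S : Type} [CommRing R] [CommRing S] (φ : R →+* S) (y : Fin 7 → R) (a b : R) :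
    npt (fun s => φ (y s)) (φ a) (φ b) = fun l => φ (npt y a b l) := by
  funext l
  fin_cases l <;> simp [npt]

theorem trans_gX {R S : Type} [CommRing R] [CommRing S] (φ : R →+* S) (F : MvPolynomial (Fin 3) R)
    (Q : Fin 3 → R) (y : Fin 7 → R) :
    gX (map φ F) (fun l => φ (Q l)) (fun s => φ (y s)) = φ (gX F Q y) := by
  simp only [gX, pderiv_map, trans_eval, map_add, map_mul]

theorem trans_gY {R S : Type} [CommRing R] [CommRing S] (φ : R →+* S) (F : MvPolynomial (Fin 3) R)
    (Q : Fin 3 → R) (y : Fin 7 → R) :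
    gY (map φ F) (fun l => φ (Q l)) (fun s => φ (y s)) = φ (gY F Q y) := by
  simp only [gY, pderiv_map, trans_eval, map_add, map_mul]

theorem trans_sys {R S : Type} [CommRing R] [CommRing S] (φ : R →+* S) (F : MvPolynomial (Fin 3) R)
    (P : Fin 3 → R) (P' : Fin 3 → S) (y : Fin 7 → R) (i : Fin 7) (hi : i ≠ 0) :
    sys (map φ F) P' (fun s => φ (y s)) i = φ (sys F P y i) := by
  fin_cases i
  · exact absurd rfl hi
  · simp only [sys, trans_npt, trans_eval]; rfl
  · simp only [sys, trans_npt, trans_gX]; rfl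
  · simp only [sys, trans_npt, trans_gY]; rfl
  · simp only [sys, trans_npt, trans_eval]; rfl
  · simp only [sys, trans_npt, trans_gX]; rfl
  · simp only [sys, trans_npt, trans_gY]; rfl

/-- `φ u = u + ε δ u` is a ring homomorphism `O → O[ε]` which maps the equations to the equations for
`P + ε v`, `y + ε δ y`; only the first one depends on `P` and it does not change since `v 2 = y 0 v 0 + y 1 v 1`;
`Sol.nondeg`. -/
theorem trans {O : Type} [Field O] [Algebra ℂ O] (f : MvPolynomial (Fin 3) ℂ) (P : Fin 3 → O)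
    (y : Fin 7 → O) (h : Sol f P y) (δ : Derivation ℂ O O)
    (hδ : ∀ i, δ (P i) = tv (map (algebraMap ℂ O) f) P y i) : ∀ j, δ (y j) = 0 := by
  have hy : Pool.Agent.CV.dpt y (fun j => δ (y j)) = fun s => trans_hom δ (y s) := rfl
  have hF : map (algebraMap ℂ (DualNumber O)) f = map (trans_hom δ) (map (algebraMap ℂ O) f) := by
    have h1 : algebraMap ℂ (DualNumber O) = (trans_hom δ).comp (algebraMap ℂ O) := by
      refine RingHom.ext fun r => ?_
      change _ = TrivSqZeroExt.inl (algebraMap ℂ O r) + TrivSqZeroExt.inr (δ (algebraMap ℂ O r))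
      rw [Derivation.map_algebraMap, TrivSqZeroExt.inr_zero, add_zero]
      rfl
    rw [map_map, ← h1]
  have h0 := h.nondeg (fun j => δ (y j)) fun i => ?_
  · intro j
    exact congrFun h0 j
  rw [hy, hF]
  by_cases hi : i = 0
  · subst hi
    have e0 : P 2 - (y 0 * P 0 + y 1 * P 1 + y 2) = 0 := h.eqs 0
    have e1 : δ (P 0) = gY (map (algebraMap ℂ O) f) P y := hδ 0
    have e2 : δ (P 1) = - gX (map (algebraMap ℂ O) f) P y := hδ 1
    have e3 : δ (P 2) = y 0 * gY (map (algebraMap ℂ O) f) P y - y 1 * gX (map (algebraMap ℂ O) f) P y :=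
      hδ 2
    have e4 : δ (P 2) = δ (y 0 * P 0 + y 1 * P 1 + y 2) := by
      rw [sub_eq_zero.1 e0]
    rw [map_add, map_add, Derivation.leibniz, Derivation.leibniz, e1, e2, e3] at e4
    simp only [smul_eq_mul] at e4
    change TrivSqZeroExt.inl (P 2) - ((TrivSqZeroExt.inl (y 0) + TrivSqZeroExt.inr (δ (y 0))) *
      TrivSqZeroExt.inl (P 0) + (TrivSqZeroExt.inl (y 1) + TrivSqZeroExt.inr (δ (y 1))) *
      TrivSqZeroExt.inl (P 1) + (TrivSqZeroExt.inl (y 2) + TrivSqZeroExt.inr (δ (y 2)))) = 0
    refine TrivSqZeroExt.ext ?_ ?_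
    · simpa using e0
    · simp
      linear_combination e4
  · rw [trans_sys (trans_hom δ) (map (algebraMap ℂ O) f) P _ y i hi, h.eqs i, map_zero]

end Pool.Agent.QU
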