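import Pool.Agent.Lib_MP_1209e6_qu.Der
import Pool.Agent.Lib_MP_1209e6_qu.Trans

/-! QUARTIC, auxiliary lemmas for the assembly (helper43). -/

set_option autoImplicit false

open MvPolynomial

noncomputable section

namespace Pool.Agent.QU

/-- a derivation of `O` which kills `k ⊆ L ⊆ O` kills the elements of `L` algebraic over `k` -/
theorem main_alg {K O : Type} [Field K] [Algebra ℂ K] [Field O] [Algebra ℂ O] [Algebra K O]
    [IsScalarTower ℂ K O] (L : IntermediateField K O) (k : IntermediateField ℂ L)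
    (δ : Derivation ℂ O O) (hδ : ∀ u ∈ k, δ (u : O) = 0) (a : L) (ha : IsAlgebraic k a) :
    δ (a : O) = 0 := by
  let v : L →ₐ[ℂ] O := L.val.restrictScalars ℂ
  let F : IntermediateField ℂ O := k.map v
  refine Pool.Agent.Campana.derivation_eq_zero δ F ?_ _ ?_
  · rintro _ ⟨u, hu, rfl⟩
    exact hδ u hu
  · obtain ⟨p, hp0, hp⟩ := ha
    have hmem : ∀ u : k, v (u : L) ∈ F := fun u => ⟨u, u.2, rfl⟩
    let j : k →+* F := ((v : L →+* O).comp (algebraMap k L)).codRestrict F.toSubfield hmem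
    refine ⟨p.map j, (Polynomial.map_ne_zero_iff j.injective).2 hp0, ?_⟩
    have h2 := congrArg v hp
    rw [map_zero, Polynomial.aeval_def] at h2
    rw [Polynomial.aeval_def, Polynomial.eval₂_map]
    change (v : L →+* O) _ = 0 at h2
    rw [Polynomial.hom_eval₂] at h2
    exact h2

/-- the values of the partial derivatives -/
theorem main_pd {O : Type} [Field O] [Algebra ℂ O] (f : MvPolynomial (Fin 3) ℂ) (Q : Fin 3 → O)
    (i : Fin 3) : eval Q (pderiv i (map (algebraMap ℂ O) f)) = aeval Q (pderiv i f) := by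
  rw [pderiv_map, eval_map]
  rfl

/-- the tangent vector is tangent -/
theorem main_tan {O : Type} [Field O] [Algebra ℂ O] (f : MvPolynomial (Fin 3) ℂ) (Q : Fin 3 → O)
    (y : Fin 7 → O) : aeval Q (pderiv 0 f) * tv (map (algebraMap ℂ O) f) Q y 0 +
      aeval Q (pderiv 1 f) * tv (map (algebraMap ℂ O) f) Q y 1 +
      aeval Q (pderiv 2 f) * tv (map (algebraMap ℂ O) f) Q y 2 = 0 := by
  have h0 : tv (map (algebraMap ℂ O) f) Q y 0 = gY (map (algebraMap ℂ O) f) Q y := rfl
  have h1 : tv (map (algebraMap ℂ O) f) Q y 1 = - gX (map (algebraMap ℂ O) f) Q y := rfl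
  have h2 : tv (map (algebraMap ℂ O) f) Q y 2 = y 0 * gY (map (algebraMap ℂ O) f) Q y -
    y 1 * gX (map (algebraMap ℂ O) f) Q y := rfl
  rw [h0, h1, h2]
  simp only [gX, gY, main_pd]
  ring

/-- a derivation with prescribed first two values is tangent -/
theorem main_der {O : Type} [Field O] [Algebra ℂ O] (f : MvPolynomial (Fin 3) ℂ) (Q : Fin 3 → O)
    (hf : aeval Q f = 0) (h2 : aeval Q (pderiv 2 f) ≠ 0) (y : Fin 7 → O) (δ : Derivation ℂ O O)
    (e0 : δ (Q 0) = tv (map (algebraMap ℂ O) f) Q y 0)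
    (e1 : δ (Q 1) = tv (map (algebraMap ℂ O) f) Q y 1) :
    ∀ i, δ (Q i) = tv (map (algebraMap ℂ O) f) Q y i := by
  have h := der_root f Q hf δ
  have ht := main_tan f Q y
  rw [e0, e1] at h
  have h3 : aeval Q (pderiv 2 f) * (δ (Q 2) - tv (map (algebraMap ℂ O) f) Q y 2) = 0 := by
    linear_combination h - ht
  have h4 := (mul_eq_zero.1 h3).resolve_left h2
  intro i
  fin_cases i
  · exact e0
  · exact e1
  · exact sub_eq_zero.1 h4

/-- the same with the first coordinate free -/
theorem main_der' {O : Type} [Field O] [Algebra ℂ O] (f : MvPolynomial (Fin 3) ℂ) (Q : Fin 3 → O)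
    (hf : aeval Q f = 0) (h0 : aeval Q (pderiv 0 f) ≠ 0) (y : Fin 7 → O) (δ : Derivation ℂ O O)
    (e1 : δ (Q 1) = tv (map (algebraMap ℂ O) f) Q y 1)
    (e2 : δ (Q 2) = tv (map (algebraMap ℂ O) f) Q y 2) :
    ∀ i, δ (Q i) = tv (map (algebraMap ℂ O) f) Q y i := by
  have h := der_root f Q hf δ
  have ht := main_tan f Q y
  rw [e1, e2] at h
  have h3 : aeval Q (pderiv 0 f) * (δ (Q 0) - tv (map (algebraMap ℂ O) f) Q y 0) = 0 := by
    linear_combination h - ht
  have h4 := (mul_eq_zero.1 h3).resolve_left h0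
  intro i
  fin_cases i
  · exact sub_eq_zero.1 h4
  · exact e1
  · exact e2

theorem main_sw_inj : Function.Injective sw := by decide

theorem main_sw_sw (i : Fin 3) : sw (sw i) = i := by
  fin_cases i <;> rfl

/-- the exchange of `X` and `Z` for the values of the derivative -/
theorem main_sw {O : Type} [Field O] [Algebra ℂ O] (f : MvPolynomial (Fin 3) ℂ) (Q : Fin 3 → O) :
    aeval (Q ∘ sw) (pderiv 0 (rename sw f)) = aeval Q (pderiv 2 f) := by
  have h : pderiv 0 (rename sw f) = rename sw (pderiv 2 f) := pderiv_rename main_sw_inj 2 f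
  rw [h, aeval_rename]
  congr 1
  have h2 : (Q ∘ sw) ∘ sw = Q := by
    funext i
    simp [main_sw_sw]
  rw [h2]

theorem main_sw_root {O : Type} [Field O] [Algebra ℂ O] (f : MvPolynomial (Fin 3) ℂ) (Q : Fin 3 → O) :
    aeval (Q ∘ sw) (rename sw f) = aeval Q f := by
  rw [aeval_rename]
  have h2 : (Q ∘ sw) ∘ sw = Q := by
    funext i
    simp [main_sw_sw]
  rw [h2]

end Pool.Agent.QU
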