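import Pool.Agent.Lib_MP_1209e6_qu.Solve
import Pool.Agent.Lib_MP_1209e6_qu.Elim
import Pool.Agent.Lib_MP_1209e6_qu.Fam
import Pool.Agent.Lib_MP_1209e6_qu.MainAux
import Pool.Agent.Lib_MP_1209e6_k3.Special
import Pool.Agent.Lib_MP_1209e6_nt.End

/-! QUARTIC, assembly (helper44, helper43). -/

set_option autoImplicit false

open MvPolynomial Pool.Agent.Campana Pool.Agent.CampanaFlow

noncomputable section

namespace Pool.Agent.QU

theorem quartic : ∃ R : MvPolynomial Mon ℚ, R ≠ 0 ∧ ∀ f : MvPolynomial (Fin 3) ℂ,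
    f.totalDegree ≤ 4 → aeval (fun m : Mon => coeff m.1 f) R ≠ 0 →
    ∀ (n : ℕ) (P : Ideal (MvPolynomial (Fin (n + 1)) ℂ)) [P.IsPrime], IsVariety P →
      (∃ x : Fin 3 → FunField P, AlgebraicIndependent ℂ ![x 0, x 1] ∧ aeval x f = 0 ∧
        IntermediateField.adjoin ℂ (Set.range x) = ⊤) →
      SpecialField (FunField P) ∧ BrodySpecial P := by
  obtain ⟨S, hS, hsol⟩ := exists_sols
  obtain ⟨R, hR, helim⟩ := elim S hS
  refine ⟨R, hR, ?_⟩
  rintro f hf hRf n P _ hP ⟨x, hx, hroot, hgen⟩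
  let O : Type := AlgebraicClosure (FunField P)
  have _ : CharZero O := charZero_of_injective_algebraMap (algebraMap ℂ O).injective
  let _ : Algebra ℚ O := DivisionRing.toRatAlgebra
  let Q : Fin 3 → O := fun i => algebraMap (FunField P) O (x i)
  have hQx : AlgebraicIndependent ℂ ![Q 0, Q 1] := by
    have h1 := hx.map' (f := IsScalarTower.toAlgHom ℂ (FunField P) O)
      (algebraMap (FunField P) O).injective
    have h2 : (⇑(IsScalarTower.toAlgHom ℂ (FunField P) O) ∘ ![x 0, x 1] : Fin 2 → O) =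
        ![Q 0, Q 1] := by
      funext i
      fin_cases i <;> rfl
    rwa [h2] at h1
  have hev : ∀ g : MvPolynomial (Fin 3) ℂ, aeval Q g = algebraMap (FunField P) O (aeval x g) :=
    fun g => MvPolynomial.aeval_algebraMap_apply O x g
  have hQroot : aeval Q f = 0 := by rw [hev, hroot, map_zero]
  obtain ⟨y, z, hy, hz, h2, hind⟩ := hsol O f Q hf hQroot (helim O f Q hf hRf hQx hQroot)
  have h2x : aeval x (pderiv 2 f) ≠ 0 := by
    intro h
    apply h2
    rw [hev, h, map_zero]
  obtain ⟨D0, D1, a00, a01, a10, a11, hconst⟩ := exists_der (O := O) x hx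
    (alg_of_root x hgen f hroot h2x)
  -- the two tangent derivations
  let v : Fin 3 → O := tv (map (algebraMap ℂ O) f) Q y
  let w : Fin 3 → O := tv (map (algebraMap ℂ O) (rename sw f)) (Q ∘ sw) z
  let δ1 : Derivation ℂ O O := v 0 • D0 + v 1 • D1
  let δ2 : Derivation ℂ O O := w 2 • D0 + w 1 • D1
  have d1 : ∀ i, δ1 (Q i) = tv (map (algebraMap ℂ O) f) Q y i := by
    refine main_der f Q hQroot h2 y δ1 ?_ ?_
    · change v 0 • D0 (Q 0) + v 1 • D1 (Q 0) = v 0
      rw [show D0 (Q 0) = 1 from a00, show D1 (Q 0) = 0 from a10, smul_eq_mul, smul_eq_mul]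
      ring
    · change v 0 • D0 (Q 1) + v 1 • D1 (Q 1) = v 1
      rw [show D0 (Q 1) = 0 from a01, show D1 (Q 1) = 1 from a11, smul_eq_mul, smul_eq_mul]
      ring
  have d2 : ∀ i, δ2 ((Q ∘ sw) i) = tv (map (algebraMap ℂ O) (rename sw f)) (Q ∘ sw) z i := by
    refine main_der' (rename sw f) (Q ∘ sw) ?_ ?_ z δ2 ?_ ?_
    · rw [main_sw_root, hQroot]
    · rw [main_sw]
      exact h2
    · change w 2 • D0 (Q 1) + w 1 • D1 (Q 1) = w 1
      rw [show D0 (Q 1) = 0 from a01, show D1 (Q 1) = 1 from a11, smul_eq_mul, smul_eq_mul]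
      ring
    · change w 2 • D0 (Q 0) + w 1 • D1 (Q 0) = w 2
      rw [show D0 (Q 0) = 1 from a00, show D1 (Q 0) = 0 from a10, smul_eq_mul, smul_eq_mul]
      ring
  have hgen' : IntermediateField.adjoin ℂ (Set.range (x ∘ sw)) = ⊤ := by
    have h1 : Set.range (x ∘ sw) = Set.range x := by
      refine Function.Surjective.range_comp (fun i => ⟨sw i, main_sw_sw i⟩) x
    rw [h1, hgen]
  -- the two covering families
  let δ : Fin 2 → Derivation ℂ O O := ![δ1, δ2]
  have key : ∀ i : Fin 2, ∃ (L : IntermediateField (FunField P) O) (k : IntermediateField ℂ L) (N : ℕ)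
      (t : Fin (N + 1) → L), FiniteDimensional (FunField P) L ∧ AlmostHomogeneous k t ∧
        ∀ u ∈ k, δ i (u : O) = 0 := by
    intro i
    fin_cases i
    · exact fam x hgen f hf y hy δ1 d1
    · exact fam (x ∘ sw) hgen' (rename sw f) ((totalDegree_rename_le sw f).trans hf) z hz δ2 d2
  choose L k N t hfin hAH hk using key
  have hc : ∀ u : FunField P, (∀ i, IsAlgebraic (k i) (algebraMap (FunField P) (L i) u)) →
      ∃ c : ℂ, u = algebraMap ℂ (FunField P) c := by
    intro u hu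
    have hu1 : δ1 (algebraMap (FunField P) O u) = 0 := main_alg (L 0) (k 0) δ1 (hk 0) _ (hu 0)
    have hu2 : δ2 (algebraMap (FunField P) O u) = 0 := main_alg (L 1) (k 1) δ2 (hk 1) _ (hu 1)
    change v 0 • D0 _ + v 1 • D1 _ = 0 at hu1
    change w 2 • D0 _ + w 1 • D1 _ = 0 at hu2
    rw [smul_eq_mul, smul_eq_mul] at hu1 hu2
    have hi : v 0 * w 1 - v 1 * w 2 ≠ 0 := by
      have h3 := hind
      unfold ind at h3
      rw [← map_rename] at h3
      exact h3
    refine hconst u ?_ ?_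
    · have h3 : (v 0 * w 1 - v 1 * w 2) * D0 (algebraMap (FunField P) O u) = 0 := by
        linear_combination w 1 * hu1 - v 1 * hu2
      exact (mul_eq_zero.1 h3).resolve_left hi
    · have h3 : (v 0 * w 1 - v 1 * w 2) * D1 (algebraMap (FunField P) O u) = 0 := by
        linear_combination v 0 * hu2 - w 2 * hu1
      exact (mul_eq_zero.1 h3).resolve_left hi
  have hfin' : ∀ i, FiniteDimensional (FunField P) (L i) := hfin
  exact ⟨Pool.Agent.K3.special_covers (funField_fg P) (fun i => L i) k N t hAH hc,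
    Pool.Agent.CampanaNT.brody_covers P hP (fun i => L i) k N t hAH hc⟩

end Pool.Agent.QU
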