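import Pool.Agent.Lib_MP_1209e6_qu.Defs

/-! QUARTIC: naturality of the systems. -/

set_option autoImplicit false

open MvPolynomial

noncomputable section

namespace Pool.Agent.QU

section nat

variable {R R' : Type} [CommRing R] [CommRing R'] (φ : R →+* R')

theorem map_eval' {σ : Type} (Q : σ → R) (g : MvPolynomial σ R) :
    φ (eval Q g) = eval (fun i => φ (Q i)) (map φ g) := by
  induction g using MvPolynomial.induction_on with
  | C a => simp
  | add p q hp hq => simp only [map_add, hp, hq]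
  | mul_X p i hp => simp only [map_mul, hp, eval_X, map_X]

theorem map_fP (c : Mon' → R) (P : Fin 3 → R) :
    map φ (fP c P) = fP (fun m => φ (c m)) (fun i => φ (P i)) := by
  simp only [fP, map_sum, map_sub, map_monomial, map_C, map_mul, map_prod, map_pow]

theorem map_gX (f : MvPolynomial (Fin 3) R) (Q : Fin 3 → R) (y : Fin 7 → R) :
    φ (gX f Q y) = gX (map φ f) (fun i => φ (Q i)) (fun j => φ (y j)) := by
  simp only [gX, map_add, map_mul, map_eval', pderiv_map]

theorem map_gY (f : MvPolynomial (Fin 3) R) (Q : Fin 3 → R) (y : Fin 7 → R) :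
    φ (gY f Q y) = gY (map φ f) (fun i => φ (Q i)) (fun j => φ (y j)) := by
  simp only [gY, map_add, map_mul, map_eval', pderiv_map]

theorem map_npt (y : Fin 7 → R) (a b : R) :
    (fun i => φ (npt y a b i)) = npt (fun j => φ (y j)) (φ a) (φ b) := by
  funext i
  fin_cases i <;> simp [npt]

theorem map_sys (f : MvPolynomial (Fin 3) R) (P : Fin 3 → R) (y : Fin 7 → R) (i : Fin 7) :
    φ (sys f P y i) = sys (map φ f) (fun l => φ (P l)) (fun j => φ (y j)) i := by
  fin_cases i
  · simp [sys]
  · show φ (eval (npt y (y 3) (y 4)) f) = eval (npt (fun j => φ (y j)) (φ (y 3)) (φ (y 4))) (map φ f)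
    rw [map_eval', map_npt]
  · show φ (gX f (npt y (y 3) (y 4)) y) =
      gX (map φ f) (npt (fun j => φ (y j)) (φ (y 3)) (φ (y 4))) (fun j => φ (y j))
    rw [map_gX, map_npt]
  · show φ (gY f (npt y (y 3) (y 4)) y) =
      gY (map φ f) (npt (fun j => φ (y j)) (φ (y 3)) (φ (y 4))) (fun j => φ (y j))
    rw [map_gY, map_npt]
  · show φ (eval (npt y (y 5) (y 6)) f) = eval (npt (fun j => φ (y j)) (φ (y 5)) (φ (y 6))) (map φ f)
    rw [map_eval', map_npt]
  · show φ (gX f (npt y (y 5) (y 6)) y) =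
      gX (map φ f) (npt (fun j => φ (y j)) (φ (y 5)) (φ (y 6))) (fun j => φ (y j))
    rw [map_gX, map_npt]
  · show φ (gY f (npt y (y 5) (y 6)) y) =
      gY (map φ f) (npt (fun j => φ (y j)) (φ (y 5)) (φ (y 6))) (fun j => φ (y j))
    rw [map_gY, map_npt]

theorem map_tv (f : MvPolynomial (Fin 3) R) (P : Fin 3 → R) (y : Fin 7 → R) (i : Fin 3) :
    φ (tv f P y i) = tv (map φ f) (fun l => φ (P l)) (fun j => φ (y j)) i := by
  fin_cases i
  · show φ (gY f P y) = gY (map φ f) (fun l => φ (P l)) (fun j => φ (y j))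
    rw [map_gY]
  · show φ (- gX f P y) = - gX (map φ f) (fun l => φ (P l)) (fun j => φ (y j))
    rw [map_neg, map_gX]
  · show φ (y 0 * gY f P y - y 1 * gX f P y) =
      φ (y 0) * gY (map φ f) (fun l => φ (P l)) (fun j => φ (y j)) -
        φ (y 1) * gX (map φ f) (fun l => φ (P l)) (fun j => φ (y j))
    rw [map_sub, map_mul, map_mul, map_gX, map_gY]

theorem map_op (f : MvPolynomial (Fin 3) R) (P : Fin 3 → R) (y : Fin 7 → R) :
    φ (op f P y) = op (map φ f) (fun l => φ (P l)) (fun j => φ (y j)) := by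
  simp only [op, map_mul, map_add, map_sub, map_gX, map_gY]

theorem map_ind (f : MvPolynomial (Fin 3) R) (P : Fin 3 → R) (y z : Fin 7 → R) :
    φ (ind f P y z) = ind (map φ f) (fun l => φ (P l)) (fun j => φ (y j)) (fun j => φ (z j)) := by
  simp only [ind, map_sub, map_mul, map_tv, map_rename]
  rfl

theorem map_joint (c : Mon' → R) (P : Fin 3 → R) (y : Fin 2 × Fin 7 → R) (p : Fin 2 × Fin 7) :
    φ (joint c P y p) = joint (fun m => φ (c m)) (fun l => φ (P l)) (fun q => φ (y q)) p := by
  unfold joint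
  split_ifs
  · rw [map_sys, map_fP]
  · rw [map_sys, map_rename, map_fP]
    rfl

theorem map_jop (c : Mon' → R) (P : Fin 3 → R) (y : Fin 2 × Fin 7 → R) :
    φ (jop c P y) = jop (fun m => φ (c m)) (fun l => φ (P l)) (fun q => φ (y q)) := by
  have h1 : map φ (pderiv 2 (fP c P)) = pderiv 2 (fP (fun m => φ (c m)) (fun l => φ (P l))) := by
    rw [← pderiv_map, map_fP]
  simp only [jop, map_mul, map_op, map_ind, map_fP, map_rename, map_eval', h1]
  rfl

end nat

end Pool.Agent.QU
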