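import Mathlib

/-! PIECE NODE: a plane quartic with two nodes, projected from the first node. -/

set_option autoImplicit false

namespace Pool.Agent.QU

open Polynomial

/-- the discriminant has a double root at the second node -/
theorem disc_double_root {k : Type} [Field k] (A B C : k[X]) (T₂ ξ : k)
    (h1 : C.eval T₂ * ξ ^ 2 + B.eval T₂ * ξ + A.eval T₂ = 0)
    (h2 : 2 * C.eval T₂ * ξ + B.eval T₂ = 0)
    (h3 : C.derivative.eval T₂ * ξ ^ 2 + B.derivative.eval T₂ * ξ + A.derivative.eval T₂ = 0) :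
    ∃ Q : k[X], B ^ 2 - 4 * A * C = (X - Polynomial.C T₂) ^ 2 * Q := by
  have hB : B.eval T₂ = -(2 * C.eval T₂ * ξ) := by linear_combination h2
  have hA : A.eval T₂ = C.eval T₂ * ξ ^ 2 := by
    rw [hB] at h1
    linear_combination h1
  have hr : (B ^ 2 - 4 * A * C).IsRoot T₂ := by
    rw [IsRoot.def]
    simp only [eval_sub, eval_pow, eval_mul, eval_ofNat, hA, hB]
    ring
  obtain ⟨E, hE⟩ := dvd_iff_isRoot.2 hr
  have hd : (B ^ 2 - 4 * A * C).derivative.eval T₂ = 0 := by
    have h4 : (B ^ 2 - 4 * A * C).derivative.eval T₂ =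
        2 * B.eval T₂ * B.derivative.eval T₂ - 4 * (A.derivative.eval T₂ * C.eval T₂ +
          A.eval T₂ * C.derivative.eval T₂) := by
      rw [show B ^ 2 - 4 * A * C = B * B - Polynomial.C 4 * (A * C) by
        rw [show (Polynomial.C (4 : k) : k[X]) = 4 from rfl]; ring]
      simp only [derivative_sub, derivative_mul, derivative_C, eval_sub, eval_add, eval_mul,
        eval_C, zero_mul, zero_add]
      ring
    rw [h4, hA, hB]
    linear_combination (-4 * C.eval T₂) * h3
  have hE2 : E.IsRoot T₂ := by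
    rw [hE, derivative_mul, derivative_sub, derivative_X, derivative_C, sub_zero, one_mul, eval_add,
      eval_mul, eval_sub, eval_X, eval_C, sub_self, zero_mul, add_zero] at hd
    exact hd
  obtain ⟨Q, hQ⟩ := dvd_iff_isRoot.2 hE2
  exact ⟨Q, by rw [hE, hQ]; ring⟩

/-- chain rule -/
theorem derivative_aeval_mv {k R : Type} [Field k] [CommRing R] [Algebra k R]
    (F : Fin 2 → R[X]) (G : MvPolynomial (Fin 2) k) :
    derivative (MvPolynomial.aeval F G) =
      MvPolynomial.aeval F (MvPolynomial.pderiv 0 G) * derivative (F 0) +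
        MvPolynomial.aeval F (MvPolynomial.pderiv 1 G) * derivative (F 1) := by
  induction G using MvPolynomial.induction_on with
  | C a =>
    rw [MvPolynomial.aeval_C, MvPolynomial.pderiv_C, MvPolynomial.pderiv_C, map_zero, zero_mul,
      zero_mul, add_zero, Polynomial.algebraMap_apply, derivative_C]
  | add p q hp hq =>
    simp only [map_add, hp, hq]
    ring
  | mul_X p n hp =>
    rw [map_mul, derivative_mul, hp, MvPolynomial.pderiv_mul, MvPolynomial.pderiv_mul,
      MvPolynomial.aeval_X]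
    fin_cases n
    · simp [MvPolynomial.pderiv_X]
      ring
    · simp [MvPolynomial.pderiv_X]
      ring

/-- weighted degree: the coefficient of `ρ ^ i` has degree at most `i` in `T` -/
theorem natDegree_coeff_le {k : Type} [Field k] (F : Fin 2 → k[X][X])
    (hF : ∀ j i, ((F j).coeff i).natDegree ≤ i) (G : MvPolynomial (Fin 2) k) (i : ℕ) :
    ((MvPolynomial.aeval F G).coeff i).natDegree ≤ i := by
  induction G using MvPolynomial.induction_on generalizing i with
  | C a =>
    rw [MvPolynomial.aeval_C, Polynomial.algebraMap_apply, Polynomial.algebraMap_apply, coeff_C]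
    split_ifs
    · simp
    · simp
  | add p q hp hq =>
    rw [map_add, coeff_add]
    exact (natDegree_add_le _ _).trans (max_le (hp i) (hq i))
  | mul_X p n hp =>
    rw [map_mul, MvPolynomial.aeval_X, coeff_mul]
    refine natDegree_sum_le_of_forall_le _ _ fun x hx => ?_
    have hx' := Finset.HasAntidiagonal.mem_antidiagonal.1 hx
    refine natDegree_mul_le.trans ?_
    have h1 := hp x.1
    have h2 := hF n x.2
    omega

theorem natDegree_aeval_le {k R : Type} [Field k] [CommRing R] [Algebra k R] (F : Fin 2 → R[X])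
    (hF : ∀ j, (F j).natDegree ≤ 1) (G : MvPolynomial (Fin 2) k) {n : ℕ} (hG : G.totalDegree ≤ n) :
    (MvPolynomial.aeval F G).natDegree ≤ n := by
  rw [MvPolynomial.aeval_def, MvPolynomial.eval₂_eq']
  refine natDegree_sum_le_of_forall_le _ _ fun d hd => ?_
  have h1 : d 0 + d 1 ≤ n := by
    have h2 := (MvPolynomial.le_totalDegree hd).trans hG
    have h3 : (d.sum fun _ e => e) = d 0 + d 1 := by
      rw [Finsupp.sum_fintype _ _ (fun _ => rfl), Fin.sum_univ_two]
    omega
  rw [Fin.prod_univ_two, Polynomial.algebraMap_apply]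
  refine (natDegree_C_mul_le _ _).trans (natDegree_mul_le.trans ?_)
  have h4 : (F 0 ^ d 0).natDegree ≤ d 0 := by
    refine natDegree_pow_le.trans ?_
    have := hF 0
    nlinarith
  have h5 : (F 1 ^ d 1).natDegree ≤ d 1 := by
    refine natDegree_pow_le.trans ?_
    have := hF 1
    nlinarith
  omega

theorem node {k : Type} [Field k] [CharZero k] (G : MvPolynomial (Fin 2) k)
    (hG : G.totalDegree ≤ 4) (m1 m2 : Fin 2 → k) (h1 : MvPolynomial.eval m1 G = 0)
    (h1x : MvPolynomial.eval m1 (MvPolynomial.pderiv 0 G) = 0)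
    (h1y : MvPolynomial.eval m1 (MvPolynomial.pderiv 1 G) = 0)
    (h2 : MvPolynomial.eval m2 G = 0)
    (h2x : MvPolynomial.eval m2 (MvPolynomial.pderiv 0 G) = 0)
    (h2y : MvPolynomial.eval m2 (MvPolynomial.pderiv 1 G) = 0) (hY : m1 1 ≠ m2 1) :
    ∃ g2 g3 g4 Q : Polynomial k, Q.natDegree ≤ 4 ∧
      g3 ^ 2 - 4 * g2 * g4 = (X - C ((m2 0 - m1 0) / (m2 1 - m1 1))) ^ 2 * Q ∧
      MvPolynomial.aeval (![C (C (m1 0)) + X * C X, C (C (m1 1)) + X] : Fin 2 → k[X][X]) G =
        X ^ 2 * (C g2 + C g3 * X + C g4 * X ^ 2) := by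
  set F : Fin 2 → k[X][X] := ![C (C (m1 0)) + X * C X, C (C (m1 1)) + X] with hFdef
  have hF0 : F 0 = C (C (m1 0)) + X * C X := rfl
  have hF1 : F 1 = C (C (m1 1)) + X := rfl
  set Φ : k[X][X] := MvPolynomial.aeval F G with hΦ
  -- degrees
  have hd1 : Φ.natDegree ≤ 4 := by
    refine natDegree_aeval_le F (fun j => ?_) G hG
    fin_cases j
    · show (C (C (m1 0)) + X * C X : k[X][X]).natDegree ≤ 1
      compute_degree
    · show (C (C (m1 1)) + X : k[X][X]).natDegree ≤ 1
      compute_degree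
  have hd2 : ∀ i, (Φ.coeff i).natDegree ≤ i := by
    refine natDegree_coeff_le F (fun j i => ?_) G
    fin_cases j
    · show ((C (C (m1 0)) + X * C X : k[X][X]).coeff i).natDegree ≤ i
      rw [coeff_add, coeff_C, mul_comm, coeff_C_mul, coeff_X]
      rcases i with _ | _ | i
      · simp
      · simp
      · simp
    · show ((C (C (m1 1)) + X : k[X][X]).coeff i).natDegree ≤ i
      rw [coeff_add, coeff_C, coeff_X]
      rcases i with _ | _ | i
      · simp
      · simp
      · simp
  -- first node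
  have hev0 : ∀ H : MvPolynomial (Fin 2) k, (MvPolynomial.aeval F H).eval 0 =
      C (MvPolynomial.eval m1 H) := by
    intro H
    have h3 := MvPolynomial.comp_aeval_apply (f := F)
      ((Polynomial.aeval (0 : k[X]) : k[X][X] →ₐ[k[X]] k[X]).restrictScalars k) H
    have h4 : (fun i => ((Polynomial.aeval (0 : k[X]) : k[X][X] →ₐ[k[X]] k[X]).restrictScalars k)
        (F i)) = algebraMap k k[X] ∘ m1 := by
      funext i
      fin_cases i
      · show (Polynomial.aeval (0 : k[X])) (C (C (m1 0)) + X * C X : k[X][X]) = C (m1 0)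
        simp
      · show (Polynomial.aeval (0 : k[X])) (C (C (m1 1)) + X : k[X][X]) = C (m1 1)
        simp
    rw [h4, MvPolynomial.aeval_algebraMap_apply, MvPolynomial.aeval_eq_eval] at h3
    exact h3
  have hc0 : Φ.coeff 0 = 0 := by
    rw [coeff_zero_eq_eval_zero, hΦ, hev0, h1, map_zero]
  have hder : derivative Φ = MvPolynomial.aeval F (MvPolynomial.pderiv 0 G) * C X +
      MvPolynomial.aeval F (MvPolynomial.pderiv 1 G) := by
    rw [hΦ, derivative_aeval_mv, hF0, hF1]
    simp
  have hc1 : Φ.coeff 1 = 0 := by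
    have h3 : (derivative Φ).coeff 0 = Φ.coeff 1 * (((0 : ℕ) : k[X]) + 1) := coeff_derivative Φ 0
    rw [Nat.cast_zero, zero_add, mul_one] at h3
    rw [← h3, coeff_zero_eq_eval_zero, hder, eval_add, eval_mul, hev0, hev0, h1x, h1y]
    simp
  have hsum : Φ = X ^ 2 * (C (Φ.coeff 2) + C (Φ.coeff 3) * X + C (Φ.coeff 4) * X ^ 2) := by
    conv_lhs => rw [as_sum_range_C_mul_X_pow' Φ (Nat.lt_succ_of_le hd1)]
    simp only [Finset.sum_range_succ, Finset.sum_range_zero, hc0, hc1, map_zero, zero_mul, zero_add]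
    ring
  -- second node
  set ξ : k := m2 1 - m1 1 with hξ
  set T₂ : k := (m2 0 - m1 0) / (m2 1 - m1 1) with hT₂
  have hξ0 : ξ ≠ 0 := sub_ne_zero.2 hY.symm
  have hTξ : m1 0 + ξ * T₂ = m2 0 := by
    rw [hT₂, ← hξ, mul_div_cancel₀ _ hξ0]
    ring
  have hξ1 : m1 1 + ξ = m2 1 := by rw [hξ]; ring
  -- restriction to `ρ = ξ`
  have hA : ∀ H : MvPolynomial (Fin 2) k, (MvPolynomial.aeval F H).eval (C ξ) =
      MvPolynomial.aeval (![C (m1 0) + C ξ * X, C (m2 1)] : Fin 2 → k[X]) H := by
    intro H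
    have h3 := MvPolynomial.comp_aeval_apply (f := F)
      ((Polynomial.aeval (C ξ : k[X]) : k[X][X] →ₐ[k[X]] k[X]).restrictScalars k) H
    have h4 : (fun i => ((Polynomial.aeval (C ξ : k[X]) : k[X][X] →ₐ[k[X]] k[X]).restrictScalars k)
        (F i)) = (![C (m1 0) + C ξ * X, C (m2 1)] : Fin 2 → k[X]) := by
      funext i
      fin_cases i
      · show (Polynomial.aeval (C ξ : k[X])) (C (C (m1 0)) + X * C X : k[X][X]) = C (m1 0) + C ξ * X
        simp
      · show (Polynomial.aeval (C ξ : k[X])) (C (C (m1 1)) + X : k[X][X]) = C (m2 1)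
        rw [← hξ1]
        simp
    rw [h4] at h3
    exact h3
  have hB : ∀ H : MvPolynomial (Fin 2) k,
      (MvPolynomial.aeval (![C (m1 0) + C ξ * X, C (m2 1)] : Fin 2 → k[X]) H).eval T₂ =
        MvPolynomial.eval m2 H := by
    intro H
    have h3 := MvPolynomial.comp_aeval_apply (f := (![C (m1 0) + C ξ * X, C (m2 1)] : Fin 2 → k[X]))
      (Polynomial.aeval T₂ : k[X] →ₐ[k] k) H
    have h4 : (fun i => (Polynomial.aeval T₂ : k[X] →ₐ[k] k)
        ((![C (m1 0) + C ξ * X, C (m2 1)] : Fin 2 → k[X]) i)) = m2 := by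
      funext i
      fin_cases i
      · show (Polynomial.aeval T₂) (C (m1 0) + C ξ * X : k[X]) = m2 0
        rw [← hTξ]
        simp
      · show (Polynomial.aeval T₂) (C (m2 1) : k[X]) = m2 1
        simp
    rw [h4, MvPolynomial.aeval_eq_eval] at h3
    exact h3
  have hξeq : MvPolynomial.aeval (![C (m1 0) + C ξ * X, C (m2 1)] : Fin 2 → k[X]) G =
      C (ξ ^ 2) * (Φ.coeff 2 + Φ.coeff 3 * C ξ + Φ.coeff 4 * C (ξ ^ 2)) := by
    rw [← hA, ← hΦ]
    conv_lhs => rw [hsum]
    simp only [eval_mul, eval_pow, eval_X, eval_add, eval_C, map_pow]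
  have hξ2 : ξ ^ 2 ≠ 0 := pow_ne_zero 2 hξ0
  have e1 : (Φ.coeff 4).eval T₂ * ξ ^ 2 + (Φ.coeff 3).eval T₂ * ξ + (Φ.coeff 2).eval T₂ = 0 := by
    have h3 := congrArg (Polynomial.eval T₂) hξeq
    rw [hB, h2] at h3
    simp only [eval_mul, eval_add, eval_C] at h3
    have h4 := (mul_eq_zero.1 h3.symm).resolve_left hξ2
    linear_combination h4
  have e3 : (Φ.coeff 4).derivative.eval T₂ * ξ ^ 2 + (Φ.coeff 3).derivative.eval T₂ * ξ +
      (Φ.coeff 2).derivative.eval T₂ = 0 := by
    have h3 := congrArg (fun p => (derivative p).eval T₂) hξeq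
    simp only [derivative_aeval_mv, Matrix.cons_val_zero, Matrix.cons_val_one, derivative_add,
      derivative_mul, derivative_C, derivative_X, eval_add, eval_mul, hB, h2x, zero_mul,
      mul_zero, zero_add, add_zero, eval_C] at h3
    have h4 := (mul_eq_zero.1 h3.symm).resolve_left hξ2
    linear_combination h4
  -- restriction to `T = T₂`
  have e2 : 2 * (Φ.coeff 4).eval T₂ * ξ + (Φ.coeff 3).eval T₂ = 0 := by
    have h3 : ((derivative Φ).eval (C ξ)).eval T₂ = 0 := by
      rw [hder, eval_add, eval_mul, hA, hA, eval_add, eval_mul, hB, hB, h2x, h2y]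
      simp
    rw [hsum] at h3
    simp only [derivative_mul, derivative_add, derivative_X_pow, derivative_C, derivative_X,
      eval_add, eval_mul, eval_pow, eval_X, eval_C, zero_mul, zero_add, mul_one] at h3
    simp at h3
    have h5 : ξ ^ 2 * (2 * (Φ.coeff 4).eval T₂ * ξ + (Φ.coeff 3).eval T₂) = 0 := by
      linear_combination h3 - 2 * ξ * e1
    exact (mul_eq_zero.1 h5).resolve_left hξ2
  obtain ⟨Q, hQ⟩ := disc_double_root (Φ.coeff 2) (Φ.coeff 3) (Φ.coeff 4) T₂ ξ e1 e2 e3
  refine ⟨Φ.coeff 2, Φ.coeff 3, Φ.coeff 4, Q, ?_, hQ, hsum⟩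
  by_cases hQ0 : Q = 0
  · rw [hQ0, natDegree_zero]
    exact Nat.zero_le _
  have g2 := hd2 2
  have g3 := hd2 3
  have g4 := hd2 4
  have h6 : (Φ.coeff 3 ^ 2 - 4 * Φ.coeff 2 * Φ.coeff 4).natDegree ≤ 6 := by
    refine (natDegree_sub_le _ _).trans (max_le ?_ ?_)
    · refine natDegree_pow_le.trans ?_
      omega
    · refine natDegree_mul_le.trans ?_
      have h7 : (4 * Φ.coeff 2 : k[X]).natDegree ≤ 2 := by
        rw [show (4 : k[X]) = Polynomial.C 4 from rfl]
        exact (natDegree_C_mul_le _ _).trans g2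
      omega
  rw [hQ, ((monic_X_sub_C T₂).pow 2).natDegree_mul' hQ0, natDegree_pow, natDegree_X_sub_C] at h6
  omega

end Pool.Agent.QU
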