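import Pool.Agent.Lib_MP_1209e6_dp.Homog

/-! Plane quartics with two nodes: the genus one model.

The lines through the first node: a point of the quartic is `(ρ, T ρ)`, and the equation divided by `ρ²` is
`C(T) ρ² + B(T) ρ + A(T) = 0`, `deg A ≤ 2`, `deg B ≤ 3`, `deg C ≤ 4`. The second node `(ξ, T₂ ξ)` gives the
double root `T₂` of the discriminant. -/

set_option autoImplicit false

open Pool.Agent.CampanaFlow

namespace Pool.Agent.QU

open Polynomial

/-- the discriminant has a double root at the second node -/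
theorem disc_double {k : Type} [Field k] (A B C : k[X]) (T₂ ξ : k)
    (h1 : C.eval T₂ * ξ ^ 2 + B.eval T₂ * ξ + A.eval T₂ = 0)
    (h2 : 2 * C.eval T₂ * ξ + B.eval T₂ = 0)
    (h3 : C.derivative.eval T₂ * ξ ^ 2 + B.derivative.eval T₂ * ξ + A.derivative.eval T₂ = 0) :
    ∃ Q : k[X], B ^ 2 - 4 * A * C = (X - Polynomial.C T₂) ^ 2 * Q := by
  have hB : B.eval T₂ = -(2 * C.eval T₂ * ξ) := by linear_combination h2
  have hA : A.eval T₂ = C.eval T₂ * ξ ^ 2 := by
    rw [hB] at h1
    linear_combination h1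
  have hr : (B ^ 2 - 4 * A * C).IsRoot T₂ := by
    rw [IsRoot.def]
    simp only [eval_sub, eval_pow, eval_mul, eval_ofNat, hA, hB]
    ring
  obtain ⟨E, hE⟩ := dvd_iff_isRoot.2 hr
  have hd : (B ^ 2 - 4 * A * C).derivative.eval T₂ = 0 := by
    have h4 : (B ^ 2 - 4 * A * C).derivative.eval T₂ =
        2 * B.eval T₂ * B.derivative.eval T₂ - 4 * (A.derivative.eval T₂ * C.eval T₂ +
          A.eval T₂ * C.derivative.eval T₂) := by
      rw [show B ^ 2 - 4 * A * C = B * B - Polynomial.C 4 * (A * C) by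
        rw [show (Polynomial.C (4 : k) : k[X]) = 4 from rfl]; ring]
      simp only [derivative_sub, derivative_mul, derivative_C, eval_sub, eval_add, eval_mul,
        eval_C, zero_mul, zero_add]
      ring
    rw [h4, hA, hB]
    linear_combination (-4 * C.eval T₂) * h3
  have hE2 : E.IsRoot T₂ := by
    rw [hE, derivative_mul, derivative_sub, derivative_X, derivative_C, sub_zero, one_mul, eval_add,
      eval_mul, eval_sub, eval_X, eval_C, sub_self, zero_mul, add_zero] at hd
    exact hd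
  obtain ⟨Q, hQ⟩ := dvd_iff_isRoot.2 hE2
  exact ⟨Q, by rw [hE, hQ]; ring⟩

section

variable {L : Type} [Field L] [Algebra ℂ L] (k : IntermediateField ℂ L)

/-- `W = 2 C(T) ρ + B(T)` does not vanish at a smooth point -/
theorem node_W (A B C : k[X]) (T ρ : L) (hT : ¬ IsAlgebraic k T)
    (h : aeval T C * ρ ^ 2 + aeval T B * ρ + aeval T A = 0) (hC0 : C ≠ 0)
    (hs : 2 * aeval T C * ρ + aeval T B ≠ 0 ∨
      aeval T C.derivative * ρ ^ 2 + aeval T B.derivative * ρ + aeval T A.derivative ≠ 0) :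
    2 * aeval T C * ρ + aeval T B ≠ 0 := by
  have hL : CharZero L := charZero_of_injective_algebraMap (algebraMap ℂ L).injective
  rcases hs with hs | hs
  · exact hs
  intro h0
  apply hs
  have htr : ∀ P : k[X], aeval T P = 0 → P = 0 := by
    intro P hP
    by_contra hne
    exact hT ⟨P, hne, hP⟩
  have hB : aeval T B = -(2 * aeval T C * ρ) := by linear_combination h0
  have hA : aeval T A = aeval T C * ρ ^ 2 := by
    rw [hB] at h
    linear_combination h
  have hΔ : B ^ 2 - 4 * A * C = 0 := by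
    apply htr
    simp only [map_sub, map_pow, map_mul, map_ofNat, hA, hB]
    ring
  have hd : aeval T (B ^ 2 - 4 * A * C).derivative = 0 := by rw [hΔ, derivative_zero, map_zero]
  have h4 : aeval T (B ^ 2 - 4 * A * C).derivative =
      2 * aeval T B * aeval T B.derivative - 4 * (aeval T A.derivative * aeval T C +
        aeval T A * aeval T C.derivative) := by
    rw [show B ^ 2 - 4 * A * C = B * B - Polynomial.C 4 * (A * C) by
      rw [show (Polynomial.C (4 : k) : k[X]) = 4 from rfl]; ring]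
    simp only [derivative_mul, map_sub, map_add, map_mul, map_ofNat, derivative_ofNat, map_zero]
    ring
  have hC : aeval T C ≠ 0 := fun hc => hC0 (htr C hc)
  have h5 : (-4 * aeval T C) * (aeval T C.derivative * ρ ^ 2 + aeval T B.derivative * ρ +
      aeval T A.derivative) = 0 := by
    rw [← hd, h4, hA, hB]
    ring
  exact (mul_eq_zero.1 h5).resolve_left (mul_ne_zero (by norm_num) hC)

theorem aeval_mem (F : IntermediateField ℂ L) (hk : ∀ a ∈ k, a ∈ F) (T : L) (hT : T ∈ F)
    (P : k[X]) : aeval T P ∈ F := by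
  rw [aeval_eq_sum_range]
  refine sum_mem fun i _ => ?_
  rw [Algebra.smul_def]
  exact F.mul_mem (hk _ (P.coeff i).2) (pow_mem hT i)

/-- **The genus one model of a plane quartic with two nodes.** -/
theorem node_family (A B C : k[X]) (hA : A.natDegree ≤ 2) (hB : B.natDegree ≤ 3)
    (hC : C.natDegree ≤ 4) (T ρ : L) (hT : ¬ IsAlgebraic k T)
    (h : aeval T C * ρ ^ 2 + aeval T B * ρ + aeval T A = 0) (hC0 : C ≠ 0)
    (hs : 2 * aeval T C * ρ + aeval T B ≠ 0 ∨
      aeval T C.derivative * ρ ^ 2 + aeval T B.derivative * ρ + aeval T A.derivative ≠ 0)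
    (T₂ ξ : k)
    (h1 : C.eval T₂ * ξ ^ 2 + B.eval T₂ * ξ + A.eval T₂ = 0)
    (h2 : 2 * C.eval T₂ * ξ + B.eval T₂ = 0)
    (h3 : C.derivative.eval T₂ * ξ ^ 2 + B.derivative.eval T₂ * ξ + A.derivative.eval T₂ = 0)
    (hgen : IntermediateField.adjoin ℂ ((k : Set L) ∪ {T, ρ}) = ⊤)
    (δ : Derivation ℂ L L) (hδ : ∀ a ∈ k, δ a = 0) (hδT : δ T ≠ 0) :
    ∃ (w c : L), w ≠ 0 ∧ c ≠ 0 ∧
      AlmostHomogeneous k (![1, T, T ^ 2, w] : Fin (3 + 1) → L) ∧
      GlobalField k (![1, T, T ^ 2, w] : Fin (3 + 1) → L) (c • δ) := by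
  have hL : CharZero L := charZero_of_injective_algebraMap (algebraMap ℂ L).injective
  have hW := node_W k A B C T ρ hT h hC0 hs
  obtain ⟨Q, hQ⟩ := disc_double A B C T₂ ξ h1 h2 h3
  have htr : ∀ P : k[X], aeval T P = 0 → P = 0 := by
    intro P hP
    by_contra hne
    exact hT ⟨P, hne, hP⟩
  have hC1 : aeval T C ≠ 0 := fun hc => hC0 (htr C hc)
  have hT2 : T - (T₂ : L) ≠ 0 := by
    intro h0
    apply hT
    rw [sub_eq_zero.1 h0]
    exact isAlgebraic_algebraMap T₂
  have hWsq : (2 * aeval T C * ρ + aeval T B) ^ 2 = aeval T (B ^ 2 - 4 * A * C) := by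
    simp only [map_sub, map_pow, map_mul, map_ofNat]
    linear_combination (4 * aeval T C) * h
  have hQT : aeval T (B ^ 2 - 4 * A * C) = (T - (T₂ : L)) ^ 2 * aeval T Q := by
    rw [hQ, map_mul, map_pow, map_sub, aeval_X, aeval_C]
    rfl
  have hQdeg : Q.natDegree ≤ 4 := by
    by_cases hQ0 : Q = 0
    · rw [hQ0, natDegree_zero]
      exact Nat.zero_le _
    have h6 : (B ^ 2 - 4 * A * C).natDegree ≤ 6 := by
      refine (natDegree_sub_le _ _).trans (max_le ?_ ?_)
      · refine natDegree_pow_le.trans ?_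
        omega
      · refine natDegree_mul_le.trans ?_
        have h7 : (4 * A : k[X]).natDegree ≤ 2 := by
          rw [show (4 : k[X]) = Polynomial.C 4 from rfl]
          exact (natDegree_C_mul_le _ _).trans hA
        omega
    rw [hQ, ((monic_X_sub_C T₂).pow 2).natDegree_mul' hQ0, natDegree_pow, natDegree_X_sub_C] at h6
    omega
  set w : L := (2 * aeval T C * ρ + aeval T B) / (T - (T₂ : L)) with hw
  have hw0 : w ≠ 0 := div_ne_zero hW hT2
  have hw2 : w ^ 2 = (Q.map (algebraMap k L)).eval T := by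
    rw [eval_map_algebraMap, hw, div_pow, hWsq, hQT, mul_div_cancel_left₀ _ (pow_ne_zero 2 hT2)]
  have hwT : 2 * aeval T C * ρ + aeval T B = w * (T - (T₂ : L)) := by
    rw [hw, div_mul_cancel₀ _ hT2]
  have hD : ∀ a ∈ k, ((w / δ T) • δ) a = 0 := fun a ha => by
    rw [Derivation.smul_apply, hδ a ha, smul_zero]
  have hDT : ((w / δ T) • δ) T = w := by
    rw [Derivation.smul_apply, smul_eq_mul, div_mul_cancel₀ _ hδT]
  have hgen' : IntermediateField.adjoin ℂ ((k : Set L) ∪ {T, w}) = ⊤ := by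
    rw [eq_top_iff, ← hgen, IntermediateField.adjoin_le_iff]
    have hk : ∀ a ∈ k, a ∈ IntermediateField.adjoin ℂ ((k : Set L) ∪ {T, w}) := fun a ha =>
      IntermediateField.subset_adjoin _ _ (Or.inl ha)
    have hTF : T ∈ IntermediateField.adjoin ℂ ((k : Set L) ∪ {T, w}) :=
      IntermediateField.subset_adjoin _ _ (Or.inr (Or.inl rfl))
    have hwF : w ∈ IntermediateField.adjoin ℂ ((k : Set L) ∪ {T, w}) :=
      IntermediateField.subset_adjoin _ _ (Or.inr (Or.inr rfl))
    rintro a (ha | ha | ha)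
    · exact hk a ha
    · rw [ha]
      exact hTF
    · rw [Set.mem_singleton_iff.1 ha]
      have h8 : ρ = (w * (T - (T₂ : L)) - aeval T B) / (2 * aeval T C) := by
        rw [eq_div_iff (mul_ne_zero two_ne_zero hC1), ← hwT]
        ring
      rw [h8]
      refine IntermediateField.div_mem _ (IntermediateField.sub_mem _ (IntermediateField.mul_mem _ hwF
        (IntermediateField.sub_mem _ hTF (hk _ T₂.2))) (aeval_mem k _ hk T hTF B))
        (IntermediateField.mul_mem _ ?_ (aeval_mem k _ hk T hTF C))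
      have := natCast_mem (IntermediateField.adjoin ℂ ((k : Set L) ∪ {T, w})) 2
      simpa using this
  obtain ⟨r1, r2⟩ := Pool.Agent.DP.homogeneous k T w (Q.map (algebraMap k L))
    (fun n => by rw [coeff_map]; exact (Q.coeff n).2) ((natDegree_map_le).trans hQdeg) hT hw2 hw0 hgen'
    ((w / δ T) • δ) hD hDT
  exact ⟨w, w / δ T, hw0, div_ne_zero hw0 hδT, r1, r2⟩

end

end Pool.Agent.QU
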