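import Pool.Agent.Lib_MP_1209e6_qu.Defs

/-! PIECE POINT (helper72): the nondegenerate base point. -/

set_option autoImplicit false

open MvPolynomial

noncomputable section

namespace Pool.Agent.QU

/-- the base quartic `(Y - 1)² (Y - 2)² - 4 (X - 1)² - 4 (Z - 1)² + 4` -/
def f0 (R : Type) [CommRing R] : MvPolynomial (Fin 3) R :=
  (X 1 - 1) ^ 2 * (X 1 - 2) ^ 2 - 4 * (X 0 - 1) ^ 2 - 4 * (X 2 - 1) ^ 2 + 4

/-- its nonconstant coefficients -/
def c0 (m : Mon') : ℚ := coeff m.1 (f0 ℚ)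

/-- the unknowns at the base point: the plane `Z = 0`, the nodes `(1, 1)`, `(1, 2)` -/
def y0 : Fin 7 → ℚ := ![0, 0, 0, 1, 1, 1, 2]

theorem po_ev {R : Type} [CommRing R] (Q : Fin 3 → R) : eval Q (f0 R) =
    (Q 1 - 1) ^ 2 * (Q 1 - 2) ^ 2 - 4 * (Q 0 - 1) ^ 2 - 4 * (Q 2 - 1) ^ 2 + 4 := by
  simp [f0]

theorem po_C (R : Type) [CommRing R] : f0 R = (X 1 - C 1) ^ 2 * (X 1 - C 2) ^ 2 -
    C 4 * (X 0 - C 1) ^ 2 - C 4 * (X 2 - C 1) ^ 2 + C 4 := by
  have h2 : (C 2 : MvPolynomial (Fin 3) R) = 2 := map_ofNat C 2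
  have h4 : (C 4 : MvPolynomial (Fin 3) R) = 4 := map_ofNat C 4
  rw [f0, map_one, h2, h4]

theorem po_d0 {R : Type} [CommRing R] (Q : Fin 3 → R) : eval Q (pderiv 0 (f0 R)) =
    -8 * (Q 0 - 1) := by
  rw [po_C]
  simp [Derivation.leibniz, Derivation.leibniz_pow]
  ring

theorem po_d1 {R : Type} [CommRing R] (Q : Fin 3 → R) : eval Q (pderiv 1 (f0 R)) =
    2 * (Q 1 - 1) * (Q 1 - 2) ^ 2 + 2 * (Q 1 - 1) ^ 2 * (Q 1 - 2) := by
  rw [po_C]
  simp [Derivation.leibniz, Derivation.leibniz_pow]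
  ring

theorem po_d2 {R : Type} [CommRing R] (Q : Fin 3 → R) : eval Q (pderiv 2 (f0 R)) =
    -8 * (Q 2 - 1) := by
  rw [po_C]
  simp [Derivation.leibniz, Derivation.leibniz_pow]
  ring

theorem map_f0 {R R' : Type} [CommRing R] [CommRing R'] (φ : R →+* R') : map φ (f0 R) = f0 R' := by
  simp [f0]

theorem po_deg : (f0 ℚ).totalDegree ≤ 4 := by
  have hX : ∀ (i : Fin 3) (c : ℚ), (X i - C c : MvPolynomial (Fin 3) ℚ).totalDegree ≤ 1 := by
    intro i c
    refine (totalDegree_sub _ _).trans ?_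
    rw [totalDegree_X, totalDegree_C]
    simp
  have h2 : ∀ (i : Fin 3) (c : ℚ), ((X i - C c) ^ 2 : MvPolynomial (Fin 3) ℚ).totalDegree ≤ 2 := by
    intro i c
    refine (totalDegree_pow _ _).trans ?_
    have := hX i c
    omega
  have h4 : ∀ (i : Fin 3) (c : ℚ),
      (C 4 * (X i - C c) ^ 2 : MvPolynomial (Fin 3) ℚ).totalDegree ≤ 4 := by
    intro i c
    refine (totalDegree_mul _ _).trans ?_
    rw [totalDegree_C]
    have := h2 i c
    omega
  rw [po_C]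
  refine (totalDegree_add _ _).trans (max_le ?_ (by rw [totalDegree_C]; omega))
  refine (totalDegree_sub _ _).trans (max_le ?_ (h4 _ _))
  refine (totalDegree_sub _ _).trans (max_le ?_ (h4 _ _))
  refine (totalDegree_mul _ _).trans ?_
  have h5 := h2 1 1
  have h6 := h2 1 2
  omega

/-- `f0` has degree `4` and no constant coefficient -/
theorem fP_c0 : fP c0 (fun _ => 0) = f0 ℚ := by
  classical
  have h1 : fP c0 (fun _ => (0 : ℚ)) = ∑ m : Mon', monomial m.1 (coeff m.1 (f0 ℚ)) := by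
    rw [fP]
    refine Finset.sum_congr rfl fun m _ => ?_
    obtain ⟨i, hi⟩ : ∃ i, m.1 i ≠ 0 := by
      by_contra hcon
      push Not at hcon
      exact m.2.2 (Finsupp.ext hcon)
    rw [Finset.prod_eq_zero (Finset.mem_univ i) (zero_pow hi), mul_zero, map_zero, sub_zero]
    rfl
  rw [h1]
  ext s
  rw [coeff_sum]
  simp only [coeff_monomial]
  by_cases hs : s.degree ≤ 4 ∧ s ≠ 0
  · rw [Finset.sum_eq_single (⟨s, hs⟩ : Mon')]
    · rw [if_pos rfl]
    · intro m _ hm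
      rw [if_neg]
      intro h
      exact hm (Subtype.ext h)
    · intro h
      exact absurd (Finset.mem_univ _) h
  · rw [Finset.sum_eq_zero]
    · by_cases h0 : s = 0
      · rw [h0]
        have h2 := po_ev (fun _ => (0 : ℚ))
        have h3 : eval (fun _ => (0 : ℚ)) (f0 ℚ) = coeff 0 (f0 ℚ) := by
          rw [← constantCoeff_eq]
          exact congrFun (congrArg DFunLike.coe (eval_zero (σ := Fin 3) (R := ℚ))) (f0 ℚ)
        rw [← h3, h2]
        norm_num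
      · symm
        apply coeff_eq_zero_of_totalDegree_lt
        have h2 : ¬ s.degree ≤ 4 := fun h => hs ⟨h, h0⟩
        have h3 := po_deg
        have h4 : ∑ i ∈ s.support, s i = s.degree := rfl
        omega
    · intro m _
      rw [if_neg]
      intro h
      rw [← h] at hs
      exact hs m.2

/-- naturality of `fP` -/
theorem po_map_fP {R R' : Type} [CommRing R] [CommRing R'] (φ : R →+* R') (c : Mon' → R)
    (P : Fin 3 → R) : map φ (fP c P) = fP (fun m => φ (c m)) (fun i => φ (P i)) := by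
  simp only [fP, map_sum, map_sub, map_monomial, map_C, map_mul, map_prod, map_pow]

theorem fP_c0_dual : fP (fun m => (TrivSqZeroExt.inl (c0 m) : DualNumber ℚ)) (fun _ => TrivSqZeroExt.inl 0) =
    f0 (DualNumber ℚ) := by
  have h := po_map_fP (TrivSqZeroExt.inlHom ℚ ℚ) c0 (fun _ => 0)
  rw [fP_c0, map_f0] at h
  exact h.symm

theorem rename_f0 (R : Type) [CommRing R] : rename sw (f0 R) = f0 R := by
  rw [po_C]
  simp [sw]
  ring

theorem sys_f0 (i : Fin 7) : sys (f0 ℚ) (fun _ => 0) y0 i = 0 := by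
  fin_cases i <;> simp [sys, gX, gY, npt, y0, po_ev, po_d0, po_d1, po_d2]

theorem ker_f0 (η : Fin 7 → ℚ) (h : ∀ i, sys (f0 (DualNumber ℚ)) (fun _ => TrivSqZeroExt.inl 0)
    (Pool.Agent.CV.dpt y0 η) i = 0) : η = 0 := by
  have h0 := congrArg TrivSqZeroExt.snd (h 0)
  have h1 := congrArg TrivSqZeroExt.snd (h 1)
  have h2 := congrArg TrivSqZeroExt.snd (h 2)
  have h3 := congrArg TrivSqZeroExt.snd (h 3)
  have h4 := congrArg TrivSqZeroExt.snd (h 4)
  have h5 := congrArg TrivSqZeroExt.snd (h 5)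
  have h6 := congrArg TrivSqZeroExt.snd (h 6)
  simp [sys, gX, gY, npt, y0, po_ev, po_d0, po_d1, po_d2, Pool.Agent.CV.dpt] at h0 h1 h2 h3 h4 h5 h6
  have f2 : TrivSqZeroExt.fst (2 : DualNumber ℚ) = 2 := TrivSqZeroExt.fst_natCast 2
  have f4 : TrivSqZeroExt.fst (4 : DualNumber ℚ) = 4 := TrivSqZeroExt.fst_natCast 4
  have f8 : TrivSqZeroExt.fst (8 : DualNumber ℚ) = 8 := TrivSqZeroExt.fst_natCast 8
  have s2 : TrivSqZeroExt.snd (2 : DualNumber ℚ) = 0 := TrivSqZeroExt.snd_natCast 2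
  have s4 : TrivSqZeroExt.snd (4 : DualNumber ℚ) = 0 := TrivSqZeroExt.snd_natCast 4
  rw [f4] at h1
  rw [f8] at h2 h3 h5 h6
  rw [f2] at h3 h4 h6
  rw [s2] at h4 h6
  rw [f4, s4] at h4
  have h1' := h1.resolve_left (by norm_num)
  funext i
  fin_cases i
  · show η 0 = 0
    linarith
  · show η 1 = 0
    linarith
  · exact h0
  · show η 3 = 0
    linarith
  · show η 4 = 0
    linarith
  · show η 5 = 0
    linarith
  · show η 6 = 0
    linarith

theorem op_f0 : op (f0 ℚ) (fun _ => 0) y0 ≠ 0 := by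
  have e0 : y0 0 = 0 := rfl
  have e1 : y0 1 = 0 := rfl
  have e3 : y0 3 = 1 := rfl
  have e4 : y0 4 = 1 := rfl
  have e6 : y0 6 = 2 := rfl
  simp only [op, gX, gY, po_d0, po_d1, po_d2, e0, e1, e3, e4, e6]
  norm_num

theorem der_f0 : eval (fun _ => 0) (pderiv 2 (f0 ℚ)) ≠ 0 := by
  rw [po_d2]
  norm_num

theorem ind_f0 : ind (f0 ℚ) (fun _ => 0) y0 y0 ≠ 0 := by
  have e0 : y0 0 = 0 := rfl
  have e1 : y0 1 = 0 := rfl
  have v0 : ∀ a b c : ℚ, (![a, b, c] : Fin 3 → ℚ) 0 = a := fun _ _ _ => rfl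
  have v1 : ∀ a b c : ℚ, (![a, b, c] : Fin 3 → ℚ) 1 = b := fun _ _ _ => rfl
  have v2 : ∀ a b c : ℚ, (![a, b, c] : Fin 3 → ℚ) 2 = c := fun _ _ _ => rfl
  simp only [ind, tv, rename_f0, gX, gY, po_d0, po_d1, po_d2, v0, v1, v2, e0, e1, Function.comp]
  norm_num

end Pool.Agent.QU
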