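import Pool.Agent.Lib_MP_1209e6_qu.Main

/-!
# General quartic surfaces in `ℙ³`

For a general polynomial `f` of degree at most `4` in three variables every projective variety birational to
the quartic surface `f = 0` is special and Brody-special.

The definitions (function fields, special function fields, Brody-special varieties) are in
`Pool.Agent.Lib_MP_1209e6_ag.Defs`.

Sketch of the proof. Through the generic point `x` of the surface there are finitely many planes
`Z = a X + b Y + c` whose section with the surface has two double points: this is a square system of seven
polynomial equations for `a`, `b`, `c` and the `X`, `Y` coordinates of the two points, and for general `f` it has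
nondegenerate solutions, because it has one for a special `f` (`(Y - 1)² (Y - 2)² = 4 (X - 1)² + 4 (Z - 1)² - 4`
with the origin as the point and the plane `Z = 0`, double points over `(1, 1)` and `(1, 2)`). Let `δ` be the
derivation of the algebraic closure of the function field along the section. Since the solution is
nondegenerate, `δ` kills it, so the sections form a family of curves with total space generically finite over
the surface. A plane quartic curve with two double points is a curve `w² = q(t)` with `deg q ≤ 4`: `t` is the
slope of the line through the first double point, and the second double point makes the discriminant of the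
residual quadratic equation divisible by a square. The vector field `w d/dt` is global on its closure
`[1 : t : t² : w]`. The exchange of `X` and `Z` gives a second family, with independent directions.
A rational function algebraic over the function fields of the bases of both families is killed by two
independent derivations, so it is constant. Varieties with such covering families are special
(`Pool.Agent.Lib_MP_1209e6_k3.Special`) and Brody-special (`Pool.Agent.Lib_MP_1209e6_nt.End`).
-/

set_option autoImplicit false

open Pool.Agent.Campana

namespace Pool.Agent.Results.MP_1209e6_ag.Quartics

/-- The function field of the projective variety with homogeneous prime ideal `P`: the field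
generated by the quotients `x_i / x_j` in the fraction field of the coordinate ring. -/
noncomputable abbrev functionField {n : ℕ} (P : Ideal (MvPolynomial (Fin (n + 1)) ℂ)) [P.IsPrime] :
    IntermediateField ℂ (FractionRing (MvPolynomial (Fin (n + 1)) ℂ ⧸ P)) :=
  IntermediateField.adjoin ℂ
    (Set.range fun ij : Fin (n + 1) × Fin (n + 1) => coord P ij.1 / coord P ij.2)

/-- There is a nonzero polynomial `R` with rational coefficients in the `35` coefficients of the polynomials of
degree at most `4` in three variables such that, if `R` does not vanish at `f`, every complex projective
variety with function field `ℂ(x_0, x_1, x_2)`, `f (x_0, x_1, x_2) = 0`, `x_0` and `x_1` algebraically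
independent (every projective variety birational to the surface `f = 0`), is special and Brody-special. -/
theorem result :
    ∃ R : MvPolynomial {m : Fin 3 →₀ ℕ // m.degree ≤ 4} ℚ, R ≠ 0 ∧
      ∀ f : MvPolynomial (Fin 3) ℂ, f.totalDegree ≤ 4 →
        MvPolynomial.aeval (fun m => f.coeff m.1) R ≠ 0 →
        ∀ (n : ℕ) (P : Ideal (MvPolynomial (Fin (n + 1)) ℂ)) [P.IsPrime], IsVariety P →
        ∀ x : Fin 3 → functionField P, AlgebraicIndependent ℂ ![x 0, x 1] →
          MvPolynomial.aeval x f = 0 → IntermediateField.adjoin ℂ (Set.range x) = ⊤ →
          SpecialField (functionField P) ∧ BrodySpecial P := by
  obtain ⟨R, hR, h⟩ := Pool.Agent.QU.quartic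
  exact ⟨R, hR, fun f hf hR' n P _ hP x h1 h2 h3 => h f hf hR' n P hP ⟨x, h1, h2, h3⟩⟩

end Pool.Agent.Results.MP_1209e6_ag.Quartics
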