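import Pool.Agent.Lib_MP_1209e6_qu.Point
import Pool.Agent.Lib_MP_1209e6_qu.Nat
import Pool.Agent.Lib_MP_1209e6_cy.GenSol

/-! PIECE SOLVE (helper44): two nondegenerate planes through the generic point. -/

set_option autoImplicit false

open MvPolynomial

noncomputable section

namespace Pool.Agent.QU

/-- the general polynomial which vanishes at `P` is `f` -/
theorem fP_eq {O : Type} [Field O] [Algebra ℂ O] (f : MvPolynomial (Fin 3) ℂ) (P : Fin 3 → O)
    (hf : f.totalDegree ≤ 4) (h : aeval P f = 0) :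
    fP (fun m : Mon' => algebraMap ℂ O (coeff m.1 f)) P = map (algebraMap ℂ O) f := by
  classical
  have hsum : map (algebraMap ℂ O) f = ∑ m : Mon', monomial m.1 (algebraMap ℂ O (coeff m.1 f)) +
      C (algebraMap ℂ O (coeff 0 f)) := by
    ext m
    rw [coeff_map, coeff_add, coeff_sum, coeff_C]
    by_cases hm : m = 0
    · subst hm
      rw [if_pos rfl, Finset.sum_eq_zero, zero_add]
      intro m' _
      rw [coeff_monomial, if_neg m'.2.2]
    · rw [if_neg (fun h => hm h.symm), add_zero]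
      by_cases hd : m.degree ≤ 4
      · rw [Finset.sum_eq_single (⟨m, hd, hm⟩ : Mon')]
        · rw [coeff_monomial, if_pos rfl]
        · intro b _ hb
          rw [coeff_monomial, if_neg]
          intro h'
          exact hb (Subtype.ext h')
        · intro h'
          exact absurd (Finset.mem_univ _) h'
      · rw [Finset.sum_eq_zero]
        · have h0 : coeff m f = 0 := by
            by_contra hne
            exact hd ((le_totalDegree (mem_support_iff.2 hne)).trans hf)
          rw [h0, map_zero]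
        · intro b _
          rw [coeff_monomial, if_neg]
          intro h'
          exact hd (h' ▸ b.2.1)
  have hev : ∑ m : Mon', algebraMap ℂ O (coeff m.1 f) * ∏ i, P i ^ m.1 i =
      - algebraMap ℂ O (coeff 0 f) := by
    have h1 : aeval P f = eval P (map (algebraMap ℂ O) f) := by
      rw [eval_map]
      rfl
    rw [h1, hsum, map_add, map_sum, eval_C] at h
    have h2 : ∀ m : Mon', eval P (monomial m.1 (algebraMap ℂ O (coeff m.1 f))) =
        algebraMap ℂ O (coeff m.1 f) * ∏ i, P i ^ m.1 i := by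
      intro m
      rw [eval_monomial, Finsupp.prod_fintype]
      intro i
      exact pow_zero _
    simp only [h2] at h
    exact eq_neg_of_add_eq_zero_left h
  rw [fP, Finset.sum_sub_distrib, hsum, ← map_sum, hev, map_neg, sub_neg_eq_add]

/-- the generic coefficients, point and unknowns -/
abbrev GRing : Type := MvPolynomial ((Mon' ⊕ Fin 3) ⊕ (Fin 2 × Fin 7)) ℚ

def gF (p : Fin 2 × Fin 7) : GRing :=
  joint (fun m => X (Sum.inl (Sum.inl m))) (fun l => X (Sum.inl (Sum.inr l))) (fun q => X (Sum.inr q)) p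

def gD : GRing :=
  jop (fun m => X (Sum.inl (Sum.inl m))) (fun l => X (Sum.inl (Sum.inr l))) (fun q => X (Sum.inr q))

theorem aeval_gF {O : Type} [CommRing O] [Algebra ℚ O] (w : (Mon' ⊕ Fin 3) ⊕ (Fin 2 × Fin 7) → O)
    (p : Fin 2 × Fin 7) : aeval w (gF p) = joint (fun m => w (Sum.inl (Sum.inl m)))
      (fun l => w (Sum.inl (Sum.inr l))) (fun q => w (Sum.inr q)) p := by
  have h := map_joint ((aeval w : GRing →ₐ[ℚ] O) : GRing →+* O) (fun m => X (Sum.inl (Sum.inl m)))
    (fun l => X (Sum.inl (Sum.inr l))) (fun q => X (Sum.inr q)) p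
  simp only [RingHom.coe_coe, aeval_X] at h
  exact h

theorem aeval_gD {O : Type} [CommRing O] [Algebra ℚ O] (w : (Mon' ⊕ Fin 3) ⊕ (Fin 2 × Fin 7) → O) :
    aeval w gD = jop (fun m => w (Sum.inl (Sum.inl m)))
      (fun l => w (Sum.inl (Sum.inr l))) (fun q => w (Sum.inr q)) := by
  have h := map_jop ((aeval w : GRing →ₐ[ℚ] O) : GRing →+* O) (fun m => X (Sum.inl (Sum.inl m)))
    (fun l => X (Sum.inl (Sum.inr l))) (fun q => X (Sum.inr q))
  simp only [RingHom.coe_coe, aeval_X] at h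
  exact h

/-- the linearised system is the system over the dual numbers -/
theorem lin_gF {O : Type} [Field O] [Algebra ℚ O] (x : Mon' ⊕ Fin 3 → O) (y : Fin 2 × Fin 7 → O)
    (η : Fin 2 × Fin 7 → O) (p : Fin 2 × Fin 7) :
    joint (fun m => (TrivSqZeroExt.inl (x (Sum.inl m)) : DualNumber O))
      (fun l => TrivSqZeroExt.inl (x (Sum.inr l))) (Pool.Agent.CV.dpt y η) p =
    TrivSqZeroExt.inl (joint (fun m => x (Sum.inl m)) (fun l => x (Sum.inr l)) y p) +
      TrivSqZeroExt.inr (∑ j, aeval (Sum.elim x y) (pderiv (Sum.inr j) (gF p)) * η j) := by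
  have h := Pool.Agent.CV.aeval_dpt (Sum.elim x y) (Sum.elim (fun _ => (0 : O)) η) (gF p)
  rw [aeval_gF, aeval_gF] at h
  simp only [Sum.elim_inl, Sum.elim_inr, Fintype.sum_sum_type, mul_zero, Finset.sum_const_zero,
    zero_add] at h
  have h1 : (fun m => Pool.Agent.CV.dpt (Sum.elim x y) (Sum.elim (fun _ => (0 : O)) η)
      (Sum.inl (Sum.inl m))) = fun m : Mon' => (TrivSqZeroExt.inl (x (Sum.inl m)) : DualNumber O) := by
    funext m
    simp [Pool.Agent.CV.dpt]
  have h2 : (fun l => Pool.Agent.CV.dpt (Sum.elim x y) (Sum.elim (fun _ => (0 : O)) η)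
      (Sum.inl (Sum.inr l))) = fun l : Fin 3 => (TrivSqZeroExt.inl (x (Sum.inr l)) : DualNumber O) := by
    funext l
    simp [Pool.Agent.CV.dpt]
  have h3 : (fun q => Pool.Agent.CV.dpt (Sum.elim x y) (Sum.elim (fun _ => (0 : O)) η)
      (Sum.inr q)) = Pool.Agent.CV.dpt y η := by
    funext q
    simp [Pool.Agent.CV.dpt]
  rw [h1, h2, h3] at h
  exact h

/-- extension of a deformation of one family by zero -/
def ext1 {O : Type} [Zero O] (i : Fin 2) (η : Fin 7 → O) (q : Fin 2 × Fin 7) : O :=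
  if q.1 = i then η q.2 else 0

theorem base_joint (p : Fin 2 × Fin 7) :
    joint c0 (fun _ => 0) (fun q : Fin 2 × Fin 7 => y0 q.2) p = 0 := by
  unfold joint
  split_ifs
  · rw [fP_c0]
    exact sys_f0 _
  · rw [fP_c0, rename_f0]
    exact sys_f0 _

theorem base_ker (η : Fin 2 × Fin 7 → ℚ)
    (h : ∀ p, joint (fun m => (TrivSqZeroExt.inl (c0 m) : DualNumber ℚ))
      (fun _ => TrivSqZeroExt.inl 0) (Pool.Agent.CV.dpt (fun q : Fin 2 × Fin 7 => y0 q.2) η) p = 0) :
    η = 0 := by
  have h0 : (fun j => η (0, j)) = 0 := by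
    refine ker_f0 _ fun i => ?_
    have h1 := h (0, i)
    unfold joint at h1
    rw [if_pos rfl, fP_c0_dual] at h1
    exact h1
  have h1 : (fun j => η (1, j)) = 0 := by
    refine ker_f0 _ fun i => ?_
    have h1 := h (1, i)
    unfold joint at h1
    rw [if_neg (by simp), fP_c0_dual, rename_f0] at h1
    exact h1
  funext ⟨i, j⟩
  fin_cases i
  · exact congrFun h0 j
  · exact congrFun h1 j

theorem base_jop : jop c0 (fun _ => 0) (fun q : Fin 2 × Fin 7 => y0 q.2) ≠ 0 := by
  unfold jop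
  rw [fP_c0, rename_f0]
  exact mul_ne_zero (mul_ne_zero (mul_ne_zero op_f0 op_f0) der_f0) ind_f0

/-- the base point -/
def bp : (Mon' ⊕ Fin 3) ⊕ (Fin 2 × Fin 7) → ℚ :=
  Sum.elim (Sum.elim c0 (fun _ => 0)) (fun q : Fin 2 × Fin 7 => y0 q.2)

theorem bp_F (p : Fin 2 × Fin 7) : eval bp (gF p) = 0 := by
  rw [← coe_aeval_eq_eval]
  show aeval bp (gF p) = 0
  rw [aeval_gF]
  exact base_joint p

theorem bp_D : eval bp gD ≠ 0 := by
  rw [← coe_aeval_eq_eval]
  show aeval bp gD ≠ 0
  rw [aeval_gD]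
  exact base_jop

theorem bp_ker (η : Fin 2 × Fin 7 → ℚ)
    (hη : ∀ p, ∑ j, eval bp (pderiv (Sum.inr j) (gF p)) * η j = 0) : η = 0 := by
  refine base_ker η fun p => ?_
  have h := lin_gF (Sum.elim c0 (fun _ => (0 : ℚ))) (fun q : Fin 2 × Fin 7 => y0 q.2) η p
  have h3 : ∑ j, aeval (Sum.elim (Sum.elim c0 (fun _ => (0 : ℚ)))
      (fun q : Fin 2 × Fin 7 => y0 q.2)) (pderiv (Sum.inr j) (gF p)) * η j = 0 := by
    refine Eq.trans (Finset.sum_congr rfl fun j _ => ?_) (hη p)
    have h5 : aeval bp (pderiv (Sum.inr j) (gF p)) = eval bp (pderiv (Sum.inr j) (gF p)) := by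
      rw [← coe_aeval_eq_eval]
      rfl
    rw [← h5]
    rfl
  have h4 : joint (fun m => Sum.elim c0 (fun _ : Fin 3 => (0 : ℚ)) (Sum.inl m))
      (fun l => Sum.elim c0 (fun _ : Fin 3 => (0 : ℚ)) (Sum.inr l))
      (fun q : Fin 2 × Fin 7 => y0 q.2) p = 0 :=
    base_joint p
  rw [h3, h4, TrivSqZeroExt.inl_zero, TrivSqZeroExt.inr_zero, add_zero] at h
  exact h

theorem sw_sw {O : Type} (P : Fin 3 → O) : (P ∘ sw) ∘ sw = P := by
  funext i
  fin_cases i <;> rfl

theorem sols_aux {O : Type} [Field O] [Algebra ℂ O] [Algebra ℚ O] (f : MvPolynomial (Fin 3) ℂ)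
    (P : Fin 3 → O) (hf : f.totalDegree ≤ 4) (hP : aeval P f = 0) (y : Fin 2 × Fin 7 → O)
    (hy1 : ∀ p, aeval (Sum.elim (Sum.elim (fun m : Mon' => algebraMap ℂ O (coeff m.1 f)) P) y)
      (gF p) = 0)
    (hy2 : ∀ η : Fin 2 × Fin 7 → O, (∀ p, ∑ j,
      aeval (Sum.elim (Sum.elim (fun m : Mon' => algebraMap ℂ O (coeff m.1 f)) P) y)
        (pderiv (Sum.inr j) (gF p)) * η j = 0) → η = 0)
    (hy3 : aeval (Sum.elim (Sum.elim (fun m : Mon' => algebraMap ℂ O (coeff m.1 f)) P) y) gD ≠ 0) :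
    ∃ y z : Fin 7 → O, Sol f P y ∧ Sol (rename sw f) (P ∘ sw) z ∧ aeval P (pderiv 2 f) ≠ 0 ∧
        ind (map (algebraMap ℂ O) f) P y z ≠ 0 := by
  set c : Mon' → O := fun m => algebraMap ℂ O (coeff m.1 f) with hc
  have hfP : fP c P = map (algebraMap ℂ O) f := fP_eq f P hf hP
  have h1 : ∀ p, joint c P y p = 0 := fun p => by
    have h := hy1 p
    rw [aeval_gF] at h
    exact h
  have hD : jop c P y ≠ 0 := by
    rw [aeval_gD] at hy3
    exact hy3
  have hK : ∀ η : Fin 2 × Fin 7 → O, (∀ p, joint (fun m => (TrivSqZeroExt.inl (c m) : DualNumber O))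
      (fun l => TrivSqZeroExt.inl (P l)) (Pool.Agent.CV.dpt y η) p = 0) → η = 0 := by
    intro η h
    refine hy2 η fun p => ?_
    have h2 := lin_gF (Sum.elim c P) y η p
    have h4 : joint (fun m => Sum.elim c P (Sum.inl m)) (fun l => Sum.elim c P (Sum.inr l)) y p = 0 :=
      h1 p
    have h5 : joint (fun m => (TrivSqZeroExt.inl (Sum.elim c P (Sum.inl m)) : DualNumber O))
      (fun l => TrivSqZeroExt.inl (Sum.elim c P (Sum.inr l))) (Pool.Agent.CV.dpt y η) p = 0 := h p
    rw [h5, h4, TrivSqZeroExt.inl_zero, zero_add] at h2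
    have h3 := congrArg TrivSqZeroExt.snd h2
    rw [TrivSqZeroExt.snd_inr, TrivSqZeroExt.snd_zero] at h3
    exact h3.symm
  have hfPd : fP (fun m => (TrivSqZeroExt.inl (c m) : DualNumber O))
      (fun l => TrivSqZeroExt.inl (P l)) = map (algebraMap ℂ (DualNumber O)) f := by
    have h := map_fP (TrivSqZeroExt.inlHom O O) c P
    rw [hfP, map_map] at h
    exact h.symm
  have hinl : ∀ p, joint (fun m => (TrivSqZeroExt.inl (c m) : DualNumber O))
      (fun l => TrivSqZeroExt.inl (P l)) (fun q => TrivSqZeroExt.inl (y q)) p = 0 := by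
    intro p
    have h := map_joint (TrivSqZeroExt.inlHom O O) c P y p
    rw [h1 p, map_zero] at h
    exact h.symm
  rw [jop, hfP] at hD
  have hD1 := left_ne_zero_of_mul hD
  have hD2 := right_ne_zero_of_mul hD
  have hD3 := right_ne_zero_of_mul hD1
  have hD4 := left_ne_zero_of_mul hD1
  refine ⟨fun j => y (0, j), fun j => y (1, j), ⟨hP, ?_, ?_, left_ne_zero_of_mul hD4⟩,
    ⟨?_, ?_, ?_, ?_⟩, ?_, hD2⟩
  · intro i
    have h := h1 (0, i)
    unfold joint at h
    rw [if_pos rfl, hfP] at h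
    exact h
  · intro η hη
    have h0 : ext1 0 η = 0 := by
      refine hK _ fun ⟨a, i⟩ => ?_
      fin_cases a
      · show joint _ _ _ (0, i) = 0
        unfold joint
        rw [if_pos rfl, hfPd]
        exact hη i
      · refine Eq.trans ?_ (hinl (1, i))
        show joint _ _ _ (1, i) = _
        unfold joint
        rw [if_neg (by simp), if_neg (by simp)]
        congr 1
        funext j
        simp [Pool.Agent.CV.dpt, ext1]
    funext j
    exact congrFun h0 (0, j)
  · rw [aeval_rename, sw_sw]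
    exact hP
  · intro i
    have h := h1 (1, i)
    unfold joint at h
    rw [if_neg (by simp), hfP, ← map_rename] at h
    exact h
  · intro η hη
    have h0 : ext1 1 η = 0 := by
      refine hK _ fun ⟨a, i⟩ => ?_
      fin_cases a
      · refine Eq.trans ?_ (hinl (0, i))
        show joint _ _ _ (0, i) = _
        unfold joint
        rw [if_pos rfl, if_pos rfl]
        congr 1
        funext j
        simp [Pool.Agent.CV.dpt, ext1]
      · show joint _ _ _ (1, i) = 0
        unfold joint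
        rw [if_neg (by simp), hfPd, ← map_rename]
        exact hη i
    funext j
    exact congrFun h0 (1, j)
  · rw [map_rename]
    exact right_ne_zero_of_mul hD4
  · intro h0
    apply hD3
    rw [pderiv_map, eval_map]
    exact h0


theorem exists_sols : ∃ S : MvPolynomial (Mon' ⊕ Fin 3) ℚ, S ≠ 0 ∧
    ∀ (O : Type) [Field O] [IsAlgClosed O] [Algebra ℂ O] [Algebra ℚ O] (f : MvPolynomial (Fin 3) ℂ)
      (P : Fin 3 → O),
      f.totalDegree ≤ 4 → aeval P f = 0 →
      aeval (Sum.elim (fun m : Mon' => algebraMap ℂ O (coeff m.1 f)) P) S ≠ 0 →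
      ∃ y z : Fin 7 → O, Sol f P y ∧ Sol (rename sw f) (P ∘ sw) z ∧ aeval P (pderiv 2 f) ≠ 0 ∧
        ind (map (algebraMap ℂ O) f) P y z ≠ 0 := by
  obtain ⟨S, hS, H⟩ := Pool.Agent.CalabiYauN.exists_generic_solution (k := ℚ) gF gD bp bp_F
    bp_ker bp_D
  refine ⟨S, hS, ?_⟩
  intro O _ _ _ _ f P hf hP hS0
  obtain ⟨y, hy1, hy2, hy3⟩ := H O _ hS0
  exact sols_aux f P hf hP y hy1 hy2 hy3

end Pool.Agent.QU
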